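import Pool.Agent.Lib_helper31.LSP.Hyp
import Pool.Agent.Lib_helper41.LSP2.Defs2
import Pool.Agent.Lib_helper19.LSPD.Defs

/-! LSP2, part O2: summation by parts in the divisor, and Ramanujan sums. -/

set_option autoImplicit false

namespace Pool.Agent.LSPO2

open Pool.Agent.FG61 (cc mu)
open Pool.Agent.LSPO (hyp hyp_nonneg hyp_le_one hyp_lip)
open Finset

/-- the weights of the cuts -/
noncomputable def lam (Dl : ℕ) (y : ℝ) (D : ℕ) : ℝ :=
  hyp (Real.log D - y) - if D < Dl then hyp (Real.log ((D + 1 : ℕ) : ℝ) - y) else 0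

/-- the divisors up to the hyperbola, without the part of conductor up to `R` -/
noncomputable def HH (Dl R : ℕ) (k : ℤ) (y : ℝ) : ℝ :=
  ∑ d ∈ (Icc 1 Dl).filter (fun d : ℕ => (d : ℤ) ∣ k), hyp (Real.log d - y) -
    ∑ c ∈ Icc 1 R, (1 / (c : ℝ) * ∑ l ∈ Icc 1 (Dl / c),
      (1 / (l : ℝ)) * hyp (Real.log ((c * l : ℕ) : ℝ) - y)) * cc c k.natAbs

theorem hyp_anti {y z : ℝ} (h : y ≤ z) : hyp z ≤ hyp y := by
  unfold hyp
  exact max_le_max le_rfl (min_le_min le_rfl (by linarith))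

theorem lam_nonneg (Dl : ℕ) (y : ℝ) {D : ℕ} (hD : 1 ≤ D) : 0 ≤ lam Dl y D := by
  unfold lam
  split_ifs
  · have h1 : Real.log D ≤ Real.log ((D + 1 : ℕ) : ℝ) :=
      Real.log_le_log (by exact_mod_cast hD) (by exact_mod_cast Nat.le_succ D)
    have := hyp_anti (show Real.log D - y ≤ Real.log ((D + 1 : ℕ) : ℝ) - y by linarith)
    linarith
  · have := hyp_nonneg (Real.log D - y)
    linarith

theorem lam_tail (Dl : ℕ) (y : ℝ) (k : ℕ) : ∀ d : ℕ, d ≤ Dl → Dl - d = k →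
    ∑ D ∈ Icc d Dl, lam Dl y D = hyp (Real.log d - y) := by
  induction k with
  | zero =>
    intro d hd hk
    have : d = Dl := by omega
    subst this
    simp [lam]
  | succ k ih =>
    intro d hd hk
    have h1 : Icc d Dl = insert d (Icc (d + 1) Dl) := by
      ext i
      simp only [mem_Icc, mem_insert]
      omega
    have h2 : d ∉ Icc (d + 1) Dl := by simp
    rw [h1, sum_insert h2, ih (d + 1) (by omega) (by omega)]
    unfold lam
    rw [if_pos (by omega)]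
    ring

theorem lam_sum (Dl : ℕ) (y : ℝ) : ∑ D ∈ Icc 1 Dl, lam Dl y D ≤ 1 := by
  rcases Nat.eq_zero_or_pos Dl with h | h
  · subst h; simp
  · rw [lam_tail Dl y _ 1 h rfl]
    exact hyp_le_one _

/-- summation by parts -/
theorem abel {ι : Type*} (Dl : ℕ) (y : ℝ) (I : Finset ι) (d : ι → ℕ) (f : ι → ℝ)
    (hd : ∀ i ∈ I, 1 ≤ d i ∧ d i ≤ Dl) :
    ∑ i ∈ I, f i * hyp (Real.log (d i) - y) =
      ∑ D ∈ Icc 1 Dl, lam Dl y D * ∑ i ∈ I, if d i ≤ D then f i else 0 := by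
  have h1 : ∀ D ∈ Icc 1 Dl, lam Dl y D * ∑ i ∈ I, (if d i ≤ D then f i else 0) =
      ∑ i ∈ I, if d i ≤ D then f i * lam Dl y D else 0 := by
    intro D _
    rw [mul_sum]
    refine sum_congr rfl fun i _ => ?_
    split_ifs <;> ring
  rw [sum_congr rfl h1, sum_comm]
  refine sum_congr rfl fun i hi => ?_
  obtain ⟨h2, h3⟩ := hd i hi
  rw [← sum_filter, ← mul_sum]
  congr 1
  rw [← lam_tail Dl y _ (d i) h3 rfl]
  refine sum_congr ?_ fun _ _ => rfl
  ext D
  simp only [mem_Icc, mem_filter]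
  omega

/-- `HH` as an average of the sharp cuts -/
theorem HH_eq (Dl R : ℕ) (k : ℤ) (y : ℝ) :
    HH Dl R k y = ∑ D ∈ Icc 1 Dl, lam Dl y D * LSPD.UU D R k := by
  unfold HH LSPD.UU
  have e1 : ∑ d ∈ (Icc 1 Dl).filter (fun d : ℕ => (d : ℤ) ∣ k), hyp (Real.log d - y) =
      ∑ D ∈ Icc 1 Dl, lam Dl y D * LSPD.tD D k := by
    have h1 := abel Dl y ((Icc 1 Dl).filter (fun d : ℕ => (d : ℤ) ∣ k)) (fun d => d)
      (fun _ => 1) (fun i hi => by
        rw [mem_filter, mem_Icc] at hi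
        exact hi.1)
    simp only [one_mul] at h1
    rw [h1]
    refine sum_congr rfl fun D hD => ?_
    congr 1
    unfold LSPD.tD
    rw [← sum_filter, sum_const, nsmul_eq_mul, mul_one]
    congr 2
    ext d
    simp only [mem_filter, mem_Icc]
    rw [mem_Icc] at hD
    constructor
    · rintro ⟨⟨⟨a, b⟩, c⟩, e⟩
      exact ⟨⟨a, e⟩, c⟩
    · rintro ⟨⟨a, e⟩, c⟩
      exact ⟨⟨⟨a, by omega⟩, c⟩, e⟩
  have e2 : ∀ c ∈ Icc 1 R, (1 / (c : ℝ) * ∑ l ∈ Icc 1 (Dl / c),
      (1 / (l : ℝ)) * hyp (Real.log ((c * l : ℕ) : ℝ) - y)) * cc c k.natAbs =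
      ∑ D ∈ Icc 1 Dl, lam Dl y D * (LSPD.ww D c * cc c k.natAbs) := by
    intro c hc
    rw [mem_Icc] at hc
    have h1 := abel Dl y (Icc 1 (Dl / c)) (fun l => c * l) (fun l => 1 / (l : ℝ))
      (fun l hl => by
        rw [mem_Icc] at hl
        constructor
        · exact Nat.mul_pos (by omega) (by omega)
        · calc c * l ≤ c * (Dl / c) := Nat.mul_le_mul_left c hl.2
            _ ≤ Dl := Nat.mul_div_le Dl c)
    rw [h1, mul_sum, sum_mul]
    refine sum_congr rfl fun D hD => ?_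
    rw [mem_Icc] at hD
    have h2 : ∑ l ∈ Icc 1 (Dl / c), (if c * l ≤ D then 1 / (l : ℝ) else 0) = LSPD.Hn (D / c) := by
      unfold LSPD.Hn
      rw [← sum_filter]
      refine sum_congr ?_ fun _ _ => rfl
      ext l
      simp only [mem_filter, mem_Icc]
      have h3 : c * l ≤ D ↔ l ≤ D / c := by
        rw [Nat.le_div_iff_mul_le (by omega), mul_comm]
      rw [h3]
      have h4 : D / c ≤ Dl / c := Nat.div_le_div_right hD.2
      omega
    rw [h2]
    unfold LSPD.ww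
    ring
  rw [e1, sum_congr rfl e2, sum_comm, ← sum_sub_distrib]
  refine sum_congr rfl fun D _ => ?_
  unfold LSPD.nu
  rw [← mul_sum, ← mul_sub]

/-- harmonic sums -/
theorem harm_le (n : ℕ) : ∑ l ∈ Icc 1 n, 1 / (l : ℝ) ≤ 1 + Real.log n := by
  have := harmonic_le_one_add_log n
  rw [harmonic_eq_sum_Icc] at this
  push_cast at this
  simpa [one_div] using this

theorem mu_abs (n : ℕ) : |mu n| ≤ 1 := by
  have h1 : |ArithmeticFunction.moebius n| ≤ 1 := ArithmeticFunction.abs_moebius_le_one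
  have h2 : (|ArithmeticFunction.moebius n| : ℤ) ≤ 1 := h1
  have h3 : ((|ArithmeticFunction.moebius n| : ℤ) : ℝ) ≤ ((1 : ℤ) : ℝ) := by exact_mod_cast h2
  rw [Int.cast_abs] at h3
  simpa using h3

/-- Ramanujan sums on average -/
theorem cc_avg {R k : ℕ} (hk : 1 ≤ k) :
    ∑ c ∈ Icc 1 R, 1 / (c : ℝ) * |cc c k| ≤ LSPO.tau k * (1 + Real.log R) := by
  have h1 : ∀ c ∈ Icc 1 R, 1 / (c : ℝ) * |cc c k| ≤
      ∑ d ∈ k.divisors, if d ∣ c then (d : ℝ) / c else 0 := by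
    intro c hc
    rw [mem_Icc] at hc
    have hc0 : (0 : ℝ) < c := by exact_mod_cast hc.1
    have h2 : |cc c k| ≤ ∑ d ∈ (Nat.gcd c k).divisors, (d : ℝ) := by
      unfold cc
      refine (abs_sum_le_sum_abs _ _).trans (sum_le_sum fun d _ => ?_)
      rw [abs_mul, abs_of_nonneg (Nat.cast_nonneg d)]
      calc (d : ℝ) * |mu (c / d)| ≤ d * 1 := mul_le_mul_of_nonneg_left (mu_abs _) (Nat.cast_nonneg d)
        _ = d := mul_one _
    have h3 : (Nat.gcd c k).divisors = k.divisors.filter (fun d => d ∣ c) := by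
      ext d
      simp only [Nat.mem_divisors, mem_filter, Nat.dvd_gcd_iff]
      constructor
      · rintro ⟨⟨a, b⟩, _⟩
        exact ⟨⟨b, by omega⟩, a⟩
      · rintro ⟨⟨b, e⟩, a⟩
        exact ⟨⟨a, b⟩, Nat.gcd_ne_zero_right (by omega)⟩
    rw [← sum_filter, ← h3]
    calc 1 / (c : ℝ) * |cc c k| ≤ 1 / (c : ℝ) * ∑ d ∈ (Nat.gcd c k).divisors, (d : ℝ) := by gcongr
      _ = ∑ d ∈ (Nat.gcd c k).divisors, (d : ℝ) / c := by
        rw [mul_sum]
        exact sum_congr rfl fun d _ => by ring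
  refine (sum_le_sum h1).trans ?_
  rw [sum_comm]
  have h2 : ∀ d ∈ k.divisors, ∑ c ∈ Icc 1 R, (if d ∣ c then (d : ℝ) / c else 0) ≤
      1 + Real.log R := by
    intro d hd
    have hd0 : 0 < d := Nat.pos_of_mem_divisors hd
    have hd1 : (0 : ℝ) < d := by exact_mod_cast hd0
    have h3 : (Icc 1 R).filter (fun c => d ∣ c) = (Icc 1 (R / d)).image (fun l => d * l) := by
      ext c
      simp only [mem_filter, mem_image, mem_Icc]
      constructor
      · rintro ⟨⟨a, b⟩, l, rfl⟩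
        refine ⟨l, ⟨?_, ?_⟩, rfl⟩
        · rcases Nat.eq_zero_or_pos l with h | h
          · subst h; simp at a
          · exact h
        · rw [Nat.le_div_iff_mul_le hd0, mul_comm]
          exact b
      · rintro ⟨l, ⟨a, b⟩, rfl⟩
        rw [Nat.le_div_iff_mul_le hd0, mul_comm] at b
        exact ⟨⟨Nat.mul_pos hd0 a, b⟩, dvd_mul_right _ _⟩
    rw [← sum_filter, h3, sum_image (by
      intro x _ y _ hxy
      exact Nat.eq_of_mul_eq_mul_left hd0 hxy)]
    have h4 : ∀ l ∈ Icc 1 (R / d), (d : ℝ) / ((d * l : ℕ) : ℝ) = 1 / (l : ℝ) := by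
      intro l hl
      rw [mem_Icc] at hl
      have : (0 : ℝ) < l := by exact_mod_cast hl.1
      push_cast
      field_simp
    rw [sum_congr rfl h4]
    refine (harm_le _).trans ?_
    rcases Nat.eq_zero_or_pos (R / d) with h | h
    · rw [h]
      simp only [Nat.cast_zero, Real.log_zero, add_zero]
      have : 0 ≤ Real.log R := Real.log_natCast_nonneg R
      linarith
    · have h5 : Real.log ((R / d : ℕ) : ℝ) ≤ Real.log R :=
        Real.log_le_log (by exact_mod_cast h) (by exact_mod_cast Nat.div_le_self R d)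
      linarith
  refine (sum_le_sum h2).trans (le_of_eq ?_)
  rw [sum_const, nsmul_eq_mul]
  rfl

/-- `HH` is bounded and Lipschitz in the position of the hyperbola -/
theorem HH_gen (Dl R : ℕ) {k : ℤ} (hk : k ≠ 0) (w : ℝ → ℝ) {B : ℝ} (hB : 0 ≤ B)
    (hw : ∀ s, |w s| ≤ B) :
    |∑ d ∈ (Icc 1 Dl).filter (fun d : ℕ => (d : ℤ) ∣ k), w (Real.log d) -
      ∑ c ∈ Icc 1 R, (1 / (c : ℝ) * ∑ l ∈ Icc 1 (Dl / c),
        (1 / (l : ℝ)) * w (Real.log ((c * l : ℕ) : ℝ))) * cc c k.natAbs| ≤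
      B * (LSPO.tau k.natAbs * (1 + (1 + Real.log Dl) * (1 + Real.log R))) := by
  have hk0 : k.natAbs ≠ 0 := Int.natAbs_ne_zero.2 hk
  have hk1 : 1 ≤ k.natAbs := Nat.one_le_iff_ne_zero.2 hk0
  have hlD : 0 ≤ Real.log Dl := Real.log_natCast_nonneg Dl
  have hlR : 0 ≤ Real.log R := Real.log_natCast_nonneg R
  have e1 : |∑ d ∈ (Icc 1 Dl).filter (fun d : ℕ => (d : ℤ) ∣ k), w (Real.log d)| ≤
      B * LSPO.tau k.natAbs := by
    refine (abs_sum_le_sum_abs _ _).trans ((sum_le_sum fun d _ => hw _).trans ?_)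
    rw [sum_const, nsmul_eq_mul, mul_comm]
    refine mul_le_mul_of_nonneg_left ?_ hB
    unfold LSPO.tau
    refine Nat.cast_le.2 (card_le_card fun d hd => ?_)
    rw [mem_filter] at hd
    rw [Nat.mem_divisors]
    exact ⟨Int.natCast_dvd.1 hd.2, hk0⟩
  have e2 : |∑ c ∈ Icc 1 R, (1 / (c : ℝ) * ∑ l ∈ Icc 1 (Dl / c),
        (1 / (l : ℝ)) * w (Real.log ((c * l : ℕ) : ℝ))) * cc c k.natAbs| ≤
      B * (1 + Real.log Dl) * (LSPO.tau k.natAbs * (1 + Real.log R)) := by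
    refine (abs_sum_le_sum_abs _ _).trans ?_
    have h1 : ∀ c ∈ Icc 1 R, |(1 / (c : ℝ) * ∑ l ∈ Icc 1 (Dl / c),
        (1 / (l : ℝ)) * w (Real.log ((c * l : ℕ) : ℝ))) * cc c k.natAbs| ≤
        B * (1 + Real.log Dl) * (1 / (c : ℝ) * |cc c k.natAbs|) := by
      intro c hc
      rw [mem_Icc] at hc
      have hc0 : (0 : ℝ) < c := by exact_mod_cast hc.1
      have h2 : |∑ l ∈ Icc 1 (Dl / c), (1 / (l : ℝ)) * w (Real.log ((c * l : ℕ) : ℝ))| ≤
          B * (1 + Real.log Dl) := by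
        refine (abs_sum_le_sum_abs _ _).trans ?_
        have h3 : ∀ l ∈ Icc 1 (Dl / c), |(1 / (l : ℝ)) * w (Real.log ((c * l : ℕ) : ℝ))| ≤
            B * (1 / (l : ℝ)) := by
          intro l _
          rw [abs_mul, abs_of_nonneg (by positivity : (0 : ℝ) ≤ 1 / (l : ℝ)), mul_comm]
          exact mul_le_mul_of_nonneg_right (hw _) (by positivity)
        refine (sum_le_sum h3).trans ?_
        rw [← mul_sum]
        refine mul_le_mul_of_nonneg_left ?_ hB
        refine (harm_le _).trans ?_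
        rcases Nat.eq_zero_or_pos (Dl / c) with h | h
        · rw [h]
          simp only [Nat.cast_zero, Real.log_zero, add_zero]
          linarith
        · have h5 : Real.log ((Dl / c : ℕ) : ℝ) ≤ Real.log Dl :=
            Real.log_le_log (by exact_mod_cast h) (by exact_mod_cast Nat.div_le_self Dl c)
          linarith
      rw [abs_mul, abs_mul, abs_of_nonneg (by positivity : (0 : ℝ) ≤ 1 / (c : ℝ))]
      calc 1 / (c : ℝ) * |∑ l ∈ Icc 1 (Dl / c), (1 / (l : ℝ)) * w (Real.log ((c * l : ℕ) : ℝ))| *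
            |cc c k.natAbs| ≤ 1 / (c : ℝ) * (B * (1 + Real.log Dl)) * |cc c k.natAbs| := by gcongr
        _ = _ := by ring
    refine (sum_le_sum h1).trans ?_
    rw [← mul_sum]
    exact mul_le_mul_of_nonneg_left (cc_avg hk1) (by positivity)
  refine (abs_sub _ _).trans ?_
  calc _ ≤ B * LSPO.tau k.natAbs +
        B * (1 + Real.log Dl) * (LSPO.tau k.natAbs * (1 + Real.log R)) := add_le_add e1 e2
    _ = _ := by ring

theorem HH_abs (Dl R : ℕ) {k : ℤ} (hk : k ≠ 0) (y : ℝ) :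
    |HH Dl R k y| ≤ LSPO.tau k.natAbs * (1 + (1 + Real.log Dl) * (1 + Real.log R)) := by
  have := HH_gen Dl R hk (fun s => hyp (s - y)) zero_le_one (fun s => by
    rw [abs_of_nonneg (hyp_nonneg _)]; exact hyp_le_one _)
  rw [one_mul] at this
  exact this

theorem HH_lip (Dl R : ℕ) {k : ℤ} (hk : k ≠ 0) (y z : ℝ) :
    |HH Dl R k y - HH Dl R k z| ≤
      |y - z| * (LSPO.tau k.natAbs * (1 + (1 + Real.log Dl) * (1 + Real.log R))) := by
  have := HH_gen Dl R hk (fun s => hyp (s - y) - hyp (s - z)) (abs_nonneg (y - z)) (fun s => by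
    refine (hyp_lip _ _).trans (le_of_eq ?_)
    rw [show s - y - (s - z) = -(y - z) by ring, abs_neg])
  refine le_trans (le_of_eq ?_) this
  congr 1
  unfold HH
  have e1 : ∑ c ∈ Icc 1 R, (1 / (c : ℝ) * ∑ l ∈ Icc 1 (Dl / c),
      (1 / (l : ℝ)) * (hyp (Real.log ((c * l : ℕ) : ℝ) - y) -
        hyp (Real.log ((c * l : ℕ) : ℝ) - z))) * cc c k.natAbs =
      ∑ c ∈ Icc 1 R, (1 / (c : ℝ) * ∑ l ∈ Icc 1 (Dl / c),
        (1 / (l : ℝ)) * hyp (Real.log ((c * l : ℕ) : ℝ) - y)) * cc c k.natAbs -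
      ∑ c ∈ Icc 1 R, (1 / (c : ℝ) * ∑ l ∈ Icc 1 (Dl / c),
        (1 / (l : ℝ)) * hyp (Real.log ((c * l : ℕ) : ℝ) - z)) * cc c k.natAbs := by
    rw [← sum_sub_distrib]
    refine sum_congr rfl fun c _ => ?_
    rw [← sub_mul, ← mul_sub, ← sum_sub_distrib]
    congr 2
    exact sum_congr rfl fun l _ => by ring
  rw [e1, sum_sub_distrib]
  ring

end Pool.Agent.LSPO2
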