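import Pool.Agent.Lib_helper31.LSP2.Cnt

/-! LSP2, part O2: parameters, and one box. -/

set_option autoImplicit false

namespace Pool.Agent.LSPO2

open Pool.Agent.LSPO (GOK)
open Finset

/-- the parameters; `Y` is a small power of `x` -/
structure O2P (G : ℝ → ℝ) (U c Y x V : ℝ) (N Q Dl R : ℕ) (P : Finset ℕ) (θ a : ℕ → ℝ) : Prop where
  ok : GOK G U c
  x1 : 1 ≤ x
  hY : 1000 * c * (Real.log x + U + 2) ^ 2 ≤ Y
  hx : Y ^ 16000 ≤ x
  N1 : x ≤ 4 * N
  N2 : (N : ℝ) ≤ 8 * x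
  Np : N.Prime
  pr : ∀ p ∈ P, p.Prime ∧ 4 * Y ^ 4000 ≤ p ∧ (p : ℝ) ≤ V
  hV : V * Q ≤ 4 * (x * Y ^ 100)
  hV1 : V * Y ^ 4000 ≤ x
  V1 : 1 ≤ V
  th : ∀ p ∈ P, |θ p| ≤ 1
  bd : ∀ m, |a m| ≤ Y / m
  sp : ∀ m, a m ≠ 0 → m ≤ Q
  ta : ∀ m : ℕ, 1 ≤ m → (m : ℝ) ≤ x ^ 2 → LSPO.tau m ≤ Y
  D1 : 20 * (1 + U) * (x * Y ^ 100) ≤ (Dl : ℝ) ^ 2
  D2 : (Dl : ℝ) ≤ x
  R2 : (R : ℝ) ≤ x
  hd : ∀ P₀ M₀ D : ℕ, Y ^ 4000 ≤ P₀ → (P₀ : ℝ) ≤ V → x ≤ Y ^ 40 * ((P₀ : ℝ) * M₀) →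
    (P₀ : ℝ) * M₀ ≤ x * Y ^ 120 → 1 ≤ D → D ≤ Dl → ∀ (r : ℤ) (S : Finset ℕ),
    |(r : ℝ)| ≤ x * Y ^ 120 → (∀ p ∈ S, p.Prime ∧ P₀ < p ∧ p ≤ 2 * P₀ ∧ ¬ (p : ℤ) ∣ r) →
    ∀ b a : ℕ → ℝ,
      |∑ p ∈ S, ∑ m ∈ Ioc M₀ (2 * M₀), b p * a m * LSPD.UU D R ((p : ℤ) * m - r)| ≤
        1 / Y ^ 1999 * (Real.sqrt ((P₀ : ℝ) * M₀) * Real.sqrt (∑ p ∈ S, b p ^ 2) *
          Real.sqrt (∑ m ∈ Ioc M₀ (2 * M₀), a m ^ 2))

/-- the index of the window of `n` -/
noncomputable def ix (η : ℝ) (n : ℕ) : ℕ := ⌊Real.log n / η⌋₊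

theorem ix_le {η : ℝ} (hη : 0 < η) {n : ℕ} (hn : 1 ≤ n) : Real.exp (η * ix η n) ≤ n := by
  have hn0 : (0 : ℝ) < n := by exact_mod_cast hn
  have hl : 0 ≤ Real.log n := Real.log_nonneg (by exact_mod_cast hn)
  rw [← Real.le_log_iff_exp_le hn0]
  unfold ix
  have := Nat.floor_le (show 0 ≤ Real.log n / η by positivity)
  rw [le_div_iff₀ hη] at this
  linarith

theorem lt_ix {η : ℝ} (hη : 0 < η) {n : ℕ} (hn : 1 ≤ n) :
    (n : ℝ) < Real.exp (η * ix η n) * Real.exp η := by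
  have hn0 : (0 : ℝ) < n := by exact_mod_cast hn
  rw [← Real.exp_add, ← Real.log_lt_iff_lt_exp hn0]
  unfold ix
  have := Nat.lt_floor_add_one (Real.log n / η)
  rw [div_lt_iff₀ hη] at this
  linarith

section

variable {G : ℝ → ℝ} {U c Y x V : ℝ} {N Q Dl R : ℕ} {P : Finset ℕ} {θ a : ℕ → ℝ}

theorem O2P.logx (h : O2P G U c Y x V N Q Dl R P θ a) : 0 ≤ Real.log x := Real.log_nonneg h.x1

theorem O2P.base (h : O2P G U c Y x V N Q Dl R P θ a) : 2000 * (Real.log x + U + 2) ≤ Y := by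
  have hU := h.ok.one_le
  have hc := h.ok.one_le'
  have hl := h.logx
  refine le_trans ?_ h.hY
  have h1 : 2 * (Real.log x + U + 2) ≤ (Real.log x + U + 2) ^ 2 := by nlinarith
  have h2 : (Real.log x + U + 2) ^ 2 ≤ c * (Real.log x + U + 2) ^ 2 :=
    le_mul_of_one_le_left (by positivity) hc
  nlinarith

theorem O2P.Y2 (h : O2P G U c Y x V N Q Dl R P θ a) : 6000 ≤ Y := by
  have := h.base
  have hU := h.ok.one_le
  have hl := h.logx
  linarith

theorem O2P.Y0 (h : O2P G U c Y x V N Q Dl R P θ a) : 0 < Y := by linarith [h.Y2]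

theorem O2P.Y1 (h : O2P G U c Y x V N Q Dl R P θ a) : 1 ≤ Y := by linarith [h.Y2]

theorem O2P.x0 (h : O2P G U c Y x V N Q Dl R P θ a) : 0 < x := by linarith [h.x1]

theorem O2P.U1 (h : O2P G U c Y x V N Q Dl R P θ a) : U ≤ Y / 2000 := by
  have := h.base
  have hl := h.logx
  linarith

theorem O2P.lx (h : O2P G U c Y x V N Q Dl R P θ a) : Real.log x ≤ Y / 2000 := by
  have := h.base
  have hU := h.ok.one_le
  linarith

theorem O2P.c1 (h : O2P G U c Y x V N Q Dl R P θ a) : c ≤ Y / 9000 := by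
  have := h.hY
  have hU := h.ok.one_le
  have hc := h.ok.one_le'
  have hl := h.logx
  have h1 : 9 ≤ (Real.log x + U + 2) ^ 2 := by nlinarith
  have h2 : c * 9 ≤ c * (Real.log x + U + 2) ^ 2 := by gcongr
  nlinarith

theorem O2P.lY0 (h : O2P G U c Y x V N Q Dl R P θ a) : 0 ≤ Real.log Y := Real.log_nonneg h.Y1

theorem O2P.lY (h : O2P G U c Y x V N Q Dl R P θ a) : 16000 * Real.log Y ≤ Real.log x := by
  have := Real.log_le_log (pow_pos h.Y0 16000) h.hx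
  rw [Real.log_pow] at this
  exact_mod_cast this

theorem O2P.pw (h : O2P G U c Y x V N Q Dl R P θ a) {i j : ℕ} (hij : i ≤ j) : Y ^ i ≤ Y ^ j :=
  pow_le_pow_right₀ h.Y1 hij

theorem O2P.pwx (h : O2P G U c Y x V N Q Dl R P θ a) {i : ℕ} (hi : i ≤ 16000) : Y ^ i ≤ x :=
  (h.pw hi).trans h.hx

/-- the sizes of the products -/
theorem O2P.pm (h : O2P G U c Y x V N Q Dl R P θ a) {p m : ℕ} (hp : p ∈ P) (hm : m ≤ Q) :
    (p : ℝ) * m ≤ 4 * (x * Y ^ 100) := by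
  refine le_trans ?_ h.hV
  have h1 := (h.pr p hp).2.2
  have h2 : (m : ℝ) ≤ Q := by exact_mod_cast hm
  have h3 := h.V1
  exact mul_le_mul h1 h2 (Nat.cast_nonneg _) (by linarith)

/-- one box -/
theorem O2P.box (h : O2P G U c Y x V N Q Dl R P θ a) {η : ℝ} (hη : (Y ^ 2000)⁻¹ ≤ η)
    (hη1 : η ≤ 1 / 10) {i j : ℕ} {g : ℤ} (hg : g ≠ 0)
    (h1 : |(g : ℝ)| * N ≤ U * Real.exp (η * (i + j))) {D : ℕ} (hD : 1 ≤ D) (hD' : D ≤ Dl) :
    |∑ p ∈ P.filter (fun p => ix η p = i), ∑ m ∈ (Icc 1 Q).filter (fun m => ix η m = j),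
      θ p / p * a m * LSPD.UU D R ((p : ℤ) * m - g * N)| ≤ 6 * η * Y / Y ^ 1999 := by
  have hY := h.Y0
  have hY1 := h.Y1
  have hY2 := h.Y2
  have hx0 := h.x0
  have hU := h.ok.one_le
  have hU1 := h.U1
  have hη0 : 0 < η := lt_of_lt_of_le (by positivity) hη
  have hR : 0 ≤ 6 * η * Y / Y ^ 1999 := by positivity
  have hN0 : (0 : ℝ) < N := by
    have := h.N1
    linarith
  have hgR : (1 : ℝ) ≤ |(g : ℝ)| := by
    have : 1 ≤ |g| := Int.one_le_abs hg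
    exact_mod_cast this
  rcases (P.filter (fun p => ix η p = i)).eq_empty_or_nonempty with h0 | ⟨p₁, hp₁⟩
  · rw [h0, sum_empty, abs_zero]; exact hR
  rcases ((Icc 1 Q).filter (fun m => ix η m = j)).eq_empty_or_nonempty with h0 | ⟨m₁, hm₁⟩
  · rw [h0]
    simp only [sum_empty, sum_const_zero, abs_zero]; exact hR
  rw [mem_filter] at hp₁ hm₁
  rw [mem_Icc] at hm₁
  set ei := Real.exp (η * i) with hei
  set ej := Real.exp (η * j) with hej
  have hei0 : 0 < ei := Real.exp_pos _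
  have hej0 : 0 < ej := Real.exp_pos _
  have hexp : Real.exp (η * (i + j)) = ei * ej := by rw [mul_add, Real.exp_add]
  have hE : Real.exp η ≤ 1 + 2 * η := by
    have e3 := Real.abs_exp_sub_one_le (show |η| ≤ 1 by rw [abs_of_pos hη0]; linarith)
    rw [abs_of_pos hη0] at e3
    have := le_abs_self (Real.exp η - 1)
    linarith
  have hE2 : Real.exp η ≤ 6 / 5 := by linarith
  have hE0 : 0 < Real.exp η := Real.exp_pos _
  have hpR : ∀ p ∈ P.filter (fun p => ix η p = i), ei ≤ p ∧ (p : ℝ) < ei * Real.exp η := by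
    intro p hp
    rw [mem_filter] at hp
    have hp1 : 1 ≤ p := (h.pr p hp.1).1.one_lt.le
    have e1 := ix_le hη0 hp1
    have e2 := lt_ix hη0 hp1
    rw [hp.2] at e1 e2
    exact ⟨e1, e2⟩
  have hmR : ∀ m ∈ (Icc 1 Q).filter (fun m => ix η m = j), ej ≤ m ∧ (m : ℝ) < ej * Real.exp η := by
    intro m hm
    rw [mem_filter, mem_Icc] at hm
    have e1 := ix_le hη0 hm.1.1
    have e2 := lt_ix hη0 hm.1.1
    rw [hm.2] at e1 e2
    exact ⟨e1, e2⟩
  obtain ⟨hp₁a, hp₁b⟩ := hpR p₁ (by rw [mem_filter]; exact hp₁)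
  obtain ⟨hm₁a, hm₁b⟩ := hmR m₁ (by rw [mem_filter, mem_Icc]; exact hm₁)
  have hpr₁ := h.pr p₁ hp₁.1
  have hνle : ei * ej ≤ 4 * (x * Y ^ 100) :=
    (mul_le_mul hp₁a hm₁a hej0.le (by positivity)).trans (h.pm hp₁.1 hm₁.1.2)
  have hνge : x ≤ 4 * U * (ei * ej) := by
    rw [hexp] at h1
    have e1 : (N : ℝ) ≤ |(g : ℝ)| * N := le_mul_of_one_le_left hN0.le hgR
    nlinarith [h.N1]
  have heiV : ei ≤ V := hp₁a.trans hpr₁.2.2
  have heiY : 3 * Y ^ 4000 ≤ ei := by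
    have e1 : 4 * Y ^ 4000 < ei * Real.exp η := lt_of_le_of_lt hpr₁.2.1 hp₁b
    have e2 : ei * Real.exp η ≤ ei * (6 / 5) := by gcongr
    have e3 : 0 < Y ^ 4000 := by positivity
    linarith
  have hejY : Y ^ 3999 ≤ ej := by
    have e1 : V * Y ^ 4000 ≤ 4 * U * (V * ej) := by
      refine h.hV1.trans (hνge.trans ?_)
      have : ei * ej ≤ V * ej := by gcongr
      nlinarith
    have e2 : Y ^ 4000 ≤ 4 * U * ej := by
      have hV0 : 0 < V := by linarith [h.V1]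
      have e3 : V * Y ^ 4000 ≤ V * (4 * U * ej) := by linarith
      exact le_of_mul_le_mul_left e3 hV0
    have e3 : 4 * U * ej ≤ Y * ej := by
      refine mul_le_mul_of_nonneg_right ?_ hej0.le
      linarith
    have e4 : Y * Y ^ 3999 ≤ Y * ej := by
      calc Y * Y ^ 3999 = Y ^ 4000 := by ring
        _ ≤ 4 * U * ej := e2
        _ ≤ Y * ej := e3
    exact le_of_mul_le_mul_left e4 hY
  have hY3 : (6000 : ℝ) ≤ Y ^ 3999 := hY2.trans (le_self_pow₀ hY1 (by norm_num))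
  -- the integers below
  have hflo : ∀ e : ℝ, 6000 ≤ e → ∃ M₀ : ℕ, (M₀ : ℝ) < e ∧ e ≤ M₀ + 1 ∧ e / 2 ≤ M₀ ∧
      e * Real.exp η ≤ 2 * M₀ := by
    intro e he
    refine ⟨⌈e⌉₊ - 1, ?_⟩
    have e1 : 1 ≤ ⌈e⌉₊ := Nat.one_le_ceil_iff.2 (by linarith)
    have e2 : ((⌈e⌉₊ - 1 : ℕ) : ℝ) = (⌈e⌉₊ : ℝ) - 1 := by push_cast [Nat.cast_sub e1]; ring
    rw [e2]
    have e3 := Nat.ceil_lt_add_one (show 0 ≤ e by linarith)
    have e4 := Nat.le_ceil e
    refine ⟨by linarith, by linarith, by linarith, ?_⟩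
    calc e * Real.exp η ≤ e * (6 / 5) := by gcongr
      _ ≤ 2 * ((⌈e⌉₊ : ℝ) - 1) := by linarith
  have hei6 : 6000 ≤ ei := by
    have e1 : Y ^ 3999 ≤ Y ^ 4000 := h.pw (by norm_num)
    linarith
  obtain ⟨P₀, hP1, hP2, hP3, hP4⟩ := hflo ei hei6
  obtain ⟨M₀, hM1, hM2, hM3, hM4⟩ := hflo ej (hY3.trans hejY)
  have hP₀ : (0 : ℝ) < P₀ := by linarith
  have hM₀ : (0 : ℝ) < M₀ := by linarith
  -- the size of g
  have hgY : |(g : ℝ)| ≤ Y ^ 102 := by
    rw [hexp] at h1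
    have e1 : |(g : ℝ)| * N ≤ U * (4 * (x * Y ^ 100)) :=
      h1.trans (mul_le_mul_of_nonneg_left hνle (by linarith))
    have e2 : |(g : ℝ)| * N ≤ (16 * U * Y ^ 100) * N := by
      refine e1.trans ?_
      have : x * (U * Y ^ 100) ≤ 4 * N * (U * Y ^ 100) :=
        mul_le_mul_of_nonneg_right h.N1 (by positivity)
      nlinarith
    have e3 : |(g : ℝ)| ≤ 16 * U * Y ^ 100 := le_of_mul_le_mul_right e2 hN0
    refine e3.trans ?_
    calc 16 * U * Y ^ 100 ≤ Y * Y ^ 100 := by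
          refine mul_le_mul_of_nonneg_right ?_ (by positivity)
          linarith
      _ = Y ^ 101 := by ring
      _ ≤ Y ^ 102 := h.pw (by norm_num)
  -- apply the bound
  set S := P.filter (fun p => ix η p = i) with hS
  set b' : ℕ → ℝ := fun p => θ p / p with hb'
  set a' : ℕ → ℝ := fun m => if m ∈ (Icc 1 Q).filter (fun m => ix η m = j) then a m else 0 with ha'
  have hsub : (Icc 1 Q).filter (fun m => ix η m = j) ⊆ Ioc M₀ (2 * M₀) := by
    intro m hm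
    obtain ⟨e1, e2⟩ := hmR m hm
    rw [mem_Ioc]
    constructor
    · have : (M₀ : ℝ) < m := hM1.trans_le e1
      exact_mod_cast this
    · have : (m : ℝ) < 2 * M₀ := e2.trans_le hM4
      exact_mod_cast this.le
  have hd := h.hd P₀ M₀ D ?_ ?_ ?_ ?_ hD hD' ((g : ℤ) * N) S ?_ ?_ b' a'
  rotate_left
  · linarith
  · linarith
  · -- lower bound for the product
    have e1 : ei * ej ≤ 4 * ((P₀ : ℝ) * M₀) := by
      have : ei * ej ≤ (2 * (P₀ : ℝ)) * (2 * M₀) :=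
        mul_le_mul (by linarith) (by linarith) hej0.le (by positivity)
      linarith
    have e2 : x ≤ 16 * U * ((P₀ : ℝ) * M₀) := by
      refine hνge.trans ?_
      calc 4 * U * (ei * ej) ≤ 4 * U * (4 * ((P₀ : ℝ) * M₀)) := by gcongr
        _ = _ := by ring
    refine e2.trans ?_
    refine mul_le_mul_of_nonneg_right ?_ (by positivity)
    calc 16 * U ≤ Y := by linarith
      _ = Y ^ 1 := (pow_one Y).symm
      _ ≤ Y ^ 40 := h.pw (by norm_num)
  · calc (P₀ : ℝ) * M₀ ≤ ei * ej := mul_le_mul hP1.le hM1.le (by positivity) (by positivity)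
      _ ≤ 4 * (x * Y ^ 100) := hνle
      _ = x * (4 * Y ^ 100) := by ring
      _ ≤ x * Y ^ 120 := by
          refine mul_le_mul_of_nonneg_left ?_ hx0.le
          calc 4 * Y ^ 100 ≤ Y * Y ^ 100 := by
                refine mul_le_mul_of_nonneg_right ?_ (by positivity)
                linarith
            _ = Y ^ 101 := by ring
            _ ≤ Y ^ 120 := h.pw (by norm_num)
  · push_cast
    rw [abs_mul, abs_of_pos hN0]
    calc |(g : ℝ)| * N ≤ Y ^ 102 * (8 * x) := mul_le_mul hgY h.N2 hN0.le (by positivity)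
      _ = x * (8 * Y ^ 102) := by ring
      _ ≤ x * Y ^ 120 := by
          refine mul_le_mul_of_nonneg_left ?_ hx0.le
          calc 8 * Y ^ 102 ≤ Y * Y ^ 102 := by
                refine mul_le_mul_of_nonneg_right ?_ (by positivity)
                linarith
            _ = Y ^ 103 := by ring
            _ ≤ Y ^ 120 := h.pw (by norm_num)
  · intro p hp
    obtain ⟨e1, e2⟩ := hpR p hp
    rw [hS, mem_filter] at hp
    have hpp := h.pr p hp.1
    refine ⟨hpp.1, ?_, ?_, ?_⟩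
    · have : (P₀ : ℝ) < p := hP1.trans_le e1
      exact_mod_cast this
    · have : (p : ℝ) < 2 * P₀ := e2.trans_le hP4
      exact_mod_cast this.le
    · intro hdv
      have hpZ : Prime (p : ℤ) := Nat.prime_iff_prime_int.1 hpp.1
      rcases hpZ.dvd_or_dvd hdv with h2 | h2
      · have h3 : p ≤ g.natAbs := Nat.le_of_dvd (Int.natAbs_pos.2 hg) (Int.natCast_dvd.1 h2)
        have h4 : (p : ℝ) ≤ |(g : ℝ)| := by
          have h5 : ((g.natAbs : ℕ) : ℝ) = |(g : ℝ)| := by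
            rw [Nat.cast_natAbs]; push_cast; rfl
          rw [← h5]
          exact_mod_cast h3
        have h5 : Y ^ 102 ≤ Y ^ 4000 := h.pw (by norm_num)
        have h6 : 0 < Y ^ 4000 := by positivity
        linarith [hpp.2.1]
      · have h3 : p ∣ N := by exact_mod_cast h2
        have h4 : p = N := (Nat.prime_dvd_prime_iff_eq hpp.1 h.Np).1 h3
        have h5 := h.hV1
        have h6 : (N : ℝ) ≤ V := by rw [← h4]; exact hpp.2.2
        have h7 : V * 6000 ≤ V * Y ^ 4000 := by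
          refine mul_le_mul_of_nonneg_left ?_ (by linarith [h.V1])
          exact hY2.trans (le_self_pow₀ hY1 (by norm_num))
        linarith [h.N1, h.V1]
  have e1 : ∀ p ∈ S, ∑ m ∈ Ioc M₀ (2 * M₀), b' p * a' m * LSPD.UU D R ((p : ℤ) * m - g * N) =
      ∑ m ∈ (Icc 1 Q).filter (fun m => ix η m = j),
        θ p / p * a m * LSPD.UU D R ((p : ℤ) * m - g * N) := by
    intro p _
    symm
    rw [← sum_subset hsub (fun m _ hm => by rw [ha']; simp only [if_neg hm, mul_zero, zero_mul])]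
    refine sum_congr rfl fun m hm => ?_
    rw [ha', hb']
    simp only [if_pos hm]
  rw [sum_congr rfl e1] at hd
  refine hd.trans ?_
  -- the norms
  have hcard : ∀ (T : Finset ℕ) (e : ℝ), Y ^ 3999 ≤ e →
      (∀ n ∈ T, e ≤ (n : ℝ) ∧ (n : ℝ) < e * Real.exp η) → (T.card : ℝ) ≤ 3 * η * e := by
    intro T e he hT
    have he0 : 0 < e := lt_of_lt_of_le (by positivity) he
    have e2 := card_win T (η := 1) (s := e + η * e) (B := η * e) one_pos (by positivity)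
      (fun n hn => by
        obtain ⟨f1, f2⟩ := hT n hn
        have f3 : e * Real.exp η ≤ e * (1 + 2 * η) := by gcongr
        rw [one_mul, abs_le]
        constructor <;> linarith)
    have e3 : 1 ≤ η * e := by
      have f1 : (Y ^ 2000)⁻¹ * Y ^ 3999 ≤ η * e := mul_le_mul hη he (by positivity) hη0.le
      have f2 : (Y ^ 2000)⁻¹ * Y ^ 3999 = Y ^ 1999 := by
        rw [show Y ^ 3999 = Y ^ 2000 * Y ^ 1999 by ring]
        field_simp
      have f3 : 1 ≤ Y ^ 1999 := one_le_pow₀ hY1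
      linarith
    linarith
  have hnb : ∑ p ∈ S, b' p ^ 2 ≤ 6 * η / P₀ := by
    have f1 : ∀ p ∈ S, b' p ^ 2 ≤ 1 / (P₀ : ℝ) ^ 2 := by
      intro p hp
      obtain ⟨e1, e2⟩ := hpR p hp
      rw [hS, mem_filter] at hp
      have f2 := h.th p hp.1
      have f3 : (P₀ : ℝ) ≤ p := (hP1.trans_le e1).le
      have hp0 : (0 : ℝ) < p := by linarith
      rw [hb']
      simp only
      rw [div_pow, div_le_div_iff₀ (by positivity) (by positivity)]
      have f4 : θ p ^ 2 ≤ 1 := by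
        rw [← sq_abs]
        exact pow_le_one₀ (abs_nonneg _) f2
      have f5 : (P₀ : ℝ) ^ 2 ≤ (p : ℝ) ^ 2 := by gcongr
      nlinarith [sq_nonneg (θ p), sq_nonneg (P₀ : ℝ)]
    refine (sum_le_sum f1).trans ?_
    rw [sum_const, nsmul_eq_mul]
    have f2 := hcard S ei (by
      have e1 : Y ^ 3999 ≤ Y ^ 4000 := h.pw (by norm_num)
      have : 0 < Y ^ 4000 := by positivity
      linarith) hpR
    calc (S.card : ℝ) * (1 / (P₀ : ℝ) ^ 2) ≤ (3 * η * ei) * (1 / (P₀ : ℝ) ^ 2) := by gcongr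
      _ ≤ (3 * η * (2 * P₀)) * (1 / (P₀ : ℝ) ^ 2) := by
          have : ei ≤ 2 * P₀ := by linarith
          gcongr
      _ = 6 * η / P₀ := by field_simp; ring
  have hna : ∑ m ∈ Ioc M₀ (2 * M₀), a' m ^ 2 ≤ Y ^ 2 * (6 * η / M₀) := by
    have f0 : ∑ m ∈ Ioc M₀ (2 * M₀), a' m ^ 2 =
        ∑ m ∈ (Icc 1 Q).filter (fun m => ix η m = j), a m ^ 2 := by
      symm
      rw [← sum_subset hsub (fun m _ hm => by
        rw [ha']; simp only [if_neg hm]; norm_num)]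
      refine sum_congr rfl fun m hm => ?_
      rw [ha']
      simp only [if_pos hm]
    rw [f0]
    have f1 : ∀ m ∈ (Icc 1 Q).filter (fun m => ix η m = j), a m ^ 2 ≤ Y ^ 2 / (M₀ : ℝ) ^ 2 := by
      intro m hm
      obtain ⟨e1, e2⟩ := hmR m hm
      have f2 := h.bd m
      have f3 : (M₀ : ℝ) ≤ m := (hM1.trans_le e1).le
      have f4 : |a m| ≤ Y / M₀ := f2.trans (div_le_div_of_nonneg_left hY.le hM₀ f3)
      rw [← sq_abs, ← div_pow]
      gcongr
    refine (sum_le_sum f1).trans ?_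
    rw [sum_const, nsmul_eq_mul]
    have f2 := hcard _ ej hejY hmR
    calc (((Icc 1 Q).filter (fun m => ix η m = j)).card : ℝ) * (Y ^ 2 / (M₀ : ℝ) ^ 2)
        ≤ (3 * η * ej) * (Y ^ 2 / (M₀ : ℝ) ^ 2) := by gcongr
      _ ≤ (3 * η * (2 * M₀)) * (Y ^ 2 / (M₀ : ℝ) ^ 2) := by
          have : ej ≤ 2 * M₀ := by linarith
          gcongr
      _ = Y ^ 2 * (6 * η / M₀) := by field_simp; ring
  have hfin : Real.sqrt ((P₀ : ℝ) * M₀) * Real.sqrt (∑ p ∈ S, b' p ^ 2) *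
      Real.sqrt (∑ m ∈ Ioc M₀ (2 * M₀), a' m ^ 2) ≤ 6 * η * Y := by
    rw [← Real.sqrt_mul (by positivity), ← Real.sqrt_mul (by positivity)]
    rw [show 6 * η * Y = Real.sqrt ((6 * η * Y) ^ 2) by rw [Real.sqrt_sq (by positivity)]]
    refine Real.sqrt_le_sqrt ?_
    calc (P₀ : ℝ) * M₀ * (∑ p ∈ S, b' p ^ 2) * ∑ m ∈ Ioc M₀ (2 * M₀), a' m ^ 2
        ≤ (P₀ : ℝ) * M₀ * (6 * η / P₀) * (Y ^ 2 * (6 * η / M₀)) := by
          refine mul_le_mul ?_ hna (sum_nonneg fun _ _ => by positivity) (by positivity)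
          gcongr
      _ = (6 * η * Y) ^ 2 := by field_simp
  calc 1 / Y ^ 1999 * _ ≤ 1 / Y ^ 1999 * (6 * η * Y) := by gcongr
    _ = 6 * η * Y / Y ^ 1999 := by ring

end

end Pool.Agent.LSPO2
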