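import Pool.Agent.Lib_helper31.LSP2.Lev

/-! LSP2, part O2: counting. -/

set_option autoImplicit false

namespace Pool.Agent.LSPO2

open Finset

theorem card_win (T : Finset ℕ) {η s B : ℝ} (hη : 0 < η) (hB : 0 ≤ B)
    (h : ∀ j ∈ T, |η * j - s| ≤ B) : (T.card : ℝ) ≤ 2 * B / η + 1 := by
  rcases T.eq_empty_or_nonempty with h0 | h0
  · subst h0
    rw [card_empty, Nat.cast_zero]
    positivity
  have h1 : T ⊆ Icc (T.min' h0) (T.max' h0) := fun j hj => by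
    rw [mem_Icc]
    exact ⟨T.min'_le j hj, T.le_max' j hj⟩
  have h2 := card_le_card h1
  rw [Nat.card_Icc] at h2
  have h3 := h _ (T.min'_mem h0)
  have h4 := h _ (T.max'_mem h0)
  rw [abs_le] at h3 h4
  have h5 : T.min' h0 ≤ T.max' h0 := T.min'_le_max' h0
  have h6 : (T.card : ℝ) ≤ (T.max' h0 : ℝ) - T.min' h0 + 1 := by
    have h7 : T.card + T.min' h0 ≤ T.max' h0 + 1 := by omega
    have h8 : (T.card : ℝ) + T.min' h0 ≤ (T.max' h0 : ℝ) + 1 := by exact_mod_cast h7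
    linarith
  have h7 : (T.max' h0 : ℝ) - T.min' h0 ≤ 2 * B / η := by
    rw [le_div_iff₀ hη]
    linarith [h3.1, h3.2, h4.1, h4.2]
  linarith

/-- the harmonic sum near `t` -/
theorem near_sum {t De : ℝ} (hD : 0 < De) (hD1 : De ≤ 1 / 12) (ht : 1 ≤ De * |t|) (Q : ℕ) :
    ∑ n ∈ (Icc 1 Q).filter (fun n : ℕ => |1 - t / n| ≤ 3 * De), 1 / (n : ℝ) ≤ 12 * De := by
  set T := (Icc 1 Q).filter (fun n : ℕ => |1 - t / n| ≤ 3 * De) with hT
  have hmem : ∀ n ∈ T, (0 : ℝ) < n ∧ |(n : ℝ) - t| ≤ 3 * De * n := by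
    intro n hn
    rw [hT, mem_filter, mem_Icc] at hn
    have hn0 : (0 : ℝ) < n := by exact_mod_cast hn.1.1
    refine ⟨hn0, ?_⟩
    have e1 : (n : ℝ) - t = n * (1 - t / n) := by field_simp
    rw [e1, abs_mul, abs_of_pos hn0]
    calc (n : ℝ) * |1 - t / n| ≤ n * (3 * De) := mul_le_mul_of_nonneg_left hn.2 hn0.le
      _ = 3 * De * n := by ring
  rcases T.eq_empty_or_nonempty with h0 | ⟨n₀, hn₀⟩
  · rw [h0, sum_empty]
    positivity
  have ht0 : 0 < t := by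
    obtain ⟨h1, h2⟩ := hmem n₀ hn₀
    rw [abs_le] at h2
    nlinarith [h2.2]
  rw [abs_of_pos ht0] at ht
  have hb : ∀ n ∈ T, 1 / (n : ℝ) ≤ 5 / (4 * t) ∧ |1 * (n : ℝ) - t| ≤ 4 * De * t := by
    intro n hn
    obtain ⟨h1, h2⟩ := hmem n hn
    have h3 := h2
    rw [abs_le] at h2
    have h4 : (n : ℝ) ≤ 4 / 3 * t := by nlinarith [h2.2]
    have h5 : 4 / 5 * t ≤ n := by nlinarith [h2.1]
    constructor
    · rw [div_le_div_iff₀ h1 (by positivity)]
      linarith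
    · rw [one_mul]
      refine h3.trans ?_
      nlinarith
  have hc := card_win T (η := 1) (s := t) (B := 4 * De * t) one_pos (by positivity)
    (fun n hn => (hb n hn).2)
  calc ∑ n ∈ T, 1 / (n : ℝ) ≤ ∑ n ∈ T, 5 / (4 * t) := sum_le_sum fun n hn => (hb n hn).1
    _ = T.card * (5 / (4 * t)) := by rw [sum_const, nsmul_eq_mul]
    _ ≤ (2 * (4 * De * t) / 1 + 1) * (5 / (4 * t)) := by gcongr
    _ ≤ (9 * (De * t)) * (5 / (4 * t)) := by
        refine mul_le_mul_of_nonneg_right ?_ (by positivity)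
        linarith
    _ = 45 / 4 * De := by field_simp; ring
    _ ≤ 12 * De := by linarith

/-- the sum over multiples -/
theorem sum_mult {p : ℕ} (hp : 1 ≤ p) (Q' : ℕ) (f : ℕ → ℕ → ℝ) :
    ∑ n ∈ Icc 1 Q', (if p ∣ n then f (n / p) n else 0) =
      ∑ m ∈ Icc 1 (Q' / p), f m (p * m) := by
  have h3 : (Icc 1 Q').filter (fun c => p ∣ c) = (Icc 1 (Q' / p)).image (fun l => p * l) := by
    ext c
    simp only [mem_filter, mem_image, mem_Icc]
    constructor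
    · rintro ⟨⟨a, b⟩, l, rfl⟩
      refine ⟨l, ⟨?_, ?_⟩, rfl⟩
      · rcases Nat.eq_zero_or_pos l with h | h
        · subst h; simp at a
        · exact h
      · rw [Nat.le_div_iff_mul_le hp, mul_comm]
        exact b
    · rintro ⟨l, ⟨a, b⟩, rfl⟩
      rw [Nat.le_div_iff_mul_le hp, mul_comm] at b
      exact ⟨⟨Nat.mul_pos hp a, b⟩, dvd_mul_right _ _⟩
  rw [← sum_filter, h3, sum_image (by
    intro x _ y _ hxy
    exact Nat.eq_of_mul_eq_mul_left hp hxy)]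
  refine sum_congr rfl fun m _ => ?_
  rw [Nat.mul_div_cancel_left m hp]

/-- unfolding of the coefficients -/
theorem cy_sum {P : Finset ℕ} (hP : ∀ p ∈ P, 1 ≤ p) (θ a : ℕ → ℝ) {Q Q' : ℕ}
    (ha : ∀ m, a m ≠ 0 → m ≤ Q) (hQ : ∀ p ∈ P, p * Q ≤ Q') (F : ℕ → ℝ) :
    ∑ n ∈ Icc 1 Q', LSP.CY P θ a n * F n =
      ∑ p ∈ P, ∑ m ∈ Icc 1 Q, θ p / p * a m * F (p * m) := by
  have e1 : ∀ n ∈ Icc 1 Q', LSP.CY P θ a n * F n =
      ∑ p ∈ P, if p ∣ n then θ p / p * a (n / p) * F n else 0 := by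
    intro n _
    unfold LSP.CY
    rw [sum_mul]
    refine sum_congr rfl fun p _ => ?_
    split_ifs
    · rfl
    · rw [zero_mul]
  rw [sum_congr rfl e1, sum_comm]
  refine sum_congr rfl fun p hp => ?_
  have hp1 := hP p hp
  rw [sum_mult hp1 Q' (fun m n => θ p / p * a m * F n)]
  symm
  refine sum_subset (fun m hm => ?_) (fun m hm hm' => ?_)
  · rw [mem_Icc] at hm ⊢
    refine ⟨hm.1, hm.2.trans ?_⟩
    rw [Nat.le_div_iff_mul_le hp1, mul_comm]
    exact hQ p hp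
  · rw [mem_Icc] at hm hm'
    have : a m = 0 := by
      by_contra h
      exact hm' ⟨hm.1, ha m h⟩
    rw [this, mul_zero, zero_mul]

/-- the absolute version -/
theorem cy_abs {P : Finset ℕ} (hP : ∀ p ∈ P, 1 ≤ p) {θ a : ℕ → ℝ} {A : ℝ} (hA : 0 ≤ A)
    (hθ : ∀ p ∈ P, |θ p| ≤ 1) (hb : ∀ m, |a m| ≤ A / m) {Q Q' : ℕ}
    (ha : ∀ m, a m ≠ 0 → m ≤ Q) (hQ : ∀ p ∈ P, p * Q ≤ Q') {F : ℕ → ℝ} (hF : ∀ n, 0 ≤ F n) :
    ∑ p ∈ P, ∑ m ∈ Icc 1 Q, |θ p / p * a m| * F (p * m) ≤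
      ∑ n ∈ Icc 1 Q', A * LSPO.tau n / n * F n := by
  have e1 := cy_sum hP (fun p => |θ p|) (fun m => |a m|) (Q := Q) (Q' := Q')
    (fun m hm => ha m (fun h => hm (by rw [h, abs_zero]))) hQ F
  have e2 : ∑ p ∈ P, ∑ m ∈ Icc 1 Q, |θ p / p * a m| * F (p * m) =
      ∑ p ∈ P, ∑ m ∈ Icc 1 Q, |θ p| / p * |a m| * F (p * m) := by
    refine sum_congr rfl fun p _ => sum_congr rfl fun m _ => ?_
    rw [abs_mul, abs_div, abs_of_nonneg (Nat.cast_nonneg (α := ℝ) p)]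
  rw [e2, ← e1]
  refine sum_le_sum fun n hn => mul_le_mul_of_nonneg_right ?_ (hF n)
  rw [mem_Icc] at hn
  have hn0 : (0 : ℝ) < n := by exact_mod_cast hn.1
  unfold LSP.CY
  have e3 : ∀ p ∈ P, (if p ∣ n then |θ p| / p * |a (n / p)| else 0) ≤
      if p ∣ n then A / n else 0 := by
    intro p hp
    split_ifs with h
    · obtain ⟨m, rfl⟩ := h
      have hp1 := hP p hp
      rw [Nat.mul_div_cancel_left m hp1]
      have hp0 : (0 : ℝ) < p := by exact_mod_cast hp1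
      have hm0 : (0 : ℝ) < m := by
        rcases Nat.eq_zero_or_pos m with h | h
        · subst h; simp at hn
        · exact_mod_cast h
      calc |θ p| / p * |a m| ≤ 1 / p * (A / m) := by
            gcongr
            · exact hθ p hp
            · exact hb m
        _ = A / ((p * m : ℕ) : ℝ) := by push_cast; field_simp
    · exact le_rfl
  refine (sum_le_sum e3).trans ?_
  rw [← sum_filter, sum_const, nsmul_eq_mul]
  have e4 : (((P.filter (fun p => p ∣ n)).card : ℕ) : ℝ) ≤ LSPO.tau n := by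
    unfold LSPO.tau
    refine Nat.cast_le.2 (card_le_card fun p hp => ?_)
    rw [mem_filter] at hp
    rw [Nat.mem_divisors]
    exact ⟨hp.2, by omega⟩
  calc ((P.filter (fun p => p ∣ n)).card : ℝ) * (A / n) ≤ LSPO.tau n * (A / n) := by gcongr
    _ = A * LSPO.tau n / n := by ring

end Pool.Agent.LSPO2
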