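import Pool.Agent.Lib_helper31.LSP2.Lv2
import Pool.Agent.Lib_helper16.LSP2.Cut
import Pool.Agent.Lib_helper31.LSP.Sums

/-! LSP2, part O2: one `g`, all levels; the sum over `g`. -/

set_option autoImplicit false

namespace Pool.Agent.LSPO2

open Pool.Agent.LSPO (GOK KK cl)
open Finset

section

variable {G : ℝ → ℝ} {U c Y x V : ℝ} {N Q Dl R : ℕ} {P : Finset ℕ} {θ a : ℕ → ℝ}

/-- the bound of the kernel -/
theorem O2P.M (h : O2P G U c Y x V N Q Dl R P θ a) {α : ℕ} (hα : α ≤ 600) (v : ℝ)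
    (hv : (16 * Y ^ 100)⁻¹ ≤ |v|) (hv' : (Y ^ α)⁻¹ / 2 ≤ |1 - v|) : |G v| ≤ Y := by
  have hY := h.Y0
  have hc := h.ok.one_le'
  have hU := h.ok.one_le
  have hpos : 0 < (Y ^ 600)⁻¹ / 2 := by positivity
  have hle : (Y ^ 600)⁻¹ / 2 ≤ |1 - v| := by
    refine le_trans ?_ hv'
    have : (Y ^ 600)⁻¹ ≤ (Y ^ α)⁻¹ := inv_anti₀ (by positivity) (h.pw hα)
    linarith
  have h1 : (Y ^ 600)⁻¹ ≤ 1 := inv_le_one_of_one_le₀ (one_le_pow₀ h.Y1)
  have e1 := LSPO.G_bound h.ok (a := (16 * Y ^ 100)⁻¹) (om := (Y ^ 600)⁻¹ / 2) (by positivity)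
    (inv_le_one_of_one_le₀ (by nlinarith [one_le_pow₀ (n := 100) h.Y1])) hpos (by linarith) hv hle
  refine e1.trans ?_
  have f1 : Real.log ((16 * Y ^ 100)⁻¹) = -(Real.log 16 + 100 * Real.log Y) := by
    rw [Real.log_inv, Real.log_mul (by norm_num) (by positivity), Real.log_pow]; norm_num
  have f2 : Real.log ((Y ^ 600)⁻¹ / 2) = -(600 * Real.log Y) - Real.log 2 := by
    rw [Real.log_div (by positivity) (by norm_num), Real.log_inv, Real.log_pow]; norm_num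
  have f3 : Real.log (1 + U) ≤ U := by
    have := Real.log_le_sub_one_of_pos (show 0 < 1 + U by linarith)
    linarith
  have f4 := Real.log_two_lt_d9
  have f8 : Real.log 16 = 4 * Real.log 2 := by
    rw [show (16 : ℝ) = 2 ^ 4 by norm_num, Real.log_pow]; norm_num
  have f5 := h.lY
  have f6 := h.lY0
  have f7 := h.hY
  have f9 := h.logx
  rw [f1, f2, f8]
  calc c * (1 - -(4 * Real.log 2 + 100 * Real.log Y) - (-(600 * Real.log Y) - Real.log 2) +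
        2 * Real.log (1 + U)) ≤ c * (1000 * (Real.log x + U + 2) ^ 2) := by
        refine mul_le_mul_of_nonneg_left ?_ (by linarith)
        nlinarith
    _ = 1000 * c * (Real.log x + U + 2) ^ 2 := by ring
    _ ≤ Y := f7

/-- one level with its parameters -/
theorem O2P.lev (h : O2P G U c Y x V N Q Dl R P θ a) {α β hh : ℕ} (e1 : 160 ≤ α) (e2 : α ≤ 600)
    (hβ : β ≤ α) (e3 : hh + β = 3 * α + 520) (e4 : hh ≤ 1999) (e5 : 3 * α ≤ 2 * β + 966)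
    {F : ℝ → ℝ} (hF : Lev U (16 * Y ^ 100)⁻¹ (Y ^ α)⁻¹ (Y ^ β)⁻¹ Y
      (c * (2 / (16 * Y ^ 100)⁻¹ + 4 / (Y ^ α)⁻¹) ^ 3 + 2 * Y / (Y ^ α)⁻¹) F)
    {g : ℤ} (hg : g ≠ 0) (hg2 : |(g : ℝ)| ≤ Y ^ 102) {Q' : ℕ} (hQ' : 4 * (x * Y ^ 100) ≤ Q') :
    |∑ n ∈ Icc 1 Q', LSP.CY P θ a n * (F ((g : ℝ) * N / n) *
      HH Dl R ((n : ℤ) - g * N) (Real.log |(n : ℝ) - g * N| / 2))| ≤ (Y ^ 507)⁻¹ := by
  have hY := h.Y0
  have hY1 := h.Y1
  have hY2 := h.Y2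
  have hc := h.ok.one_le'
  have hc1 := h.c1
  have hinv : ∀ {i j : ℕ}, i ≤ j → (Y ^ j)⁻¹ ≤ (Y ^ i)⁻¹ := fun {i j} hij =>
    inv_anti₀ (by positivity) (h.pw hij)
  set La := c * (2 / (16 * Y ^ 100)⁻¹ + 4 / (Y ^ α)⁻¹) ^ 3 + 2 * Y / (Y ^ α)⁻¹ with hLa
  have hsmall : ∀ {i : ℕ}, 1 ≤ i → (Y ^ i)⁻¹ ≤ 1 / 12 := by
    intro i hi
    have f1 : (Y ^ i)⁻¹ ≤ (Y ^ 1)⁻¹ := hinv hi
    have f2 : (Y ^ 1)⁻¹ ≤ 1 / 12 := by
      rw [pow_one, inv_eq_one_div]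
      exact one_div_le_one_div_of_le (by norm_num) (by linarith)
    exact f1.trans f2
  have hLa1 : 1 / (Y ^ α)⁻¹ ≤ La := by
    rw [hLa, one_div, inv_inv, div_inv_eq_mul, div_inv_eq_mul, div_inv_eq_mul]
    have f1 : 0 ≤ c * (2 * (16 * Y ^ 100) + 4 * Y ^ α) ^ 3 := by positivity
    have f2 : Y ^ α ≤ 2 * Y * Y ^ α := le_mul_of_one_le_left (by positivity) (by linarith)
    linarith
  have hLa2 : La ≤ Y ^ (3 * α + 2) := by
    rw [hLa, div_inv_eq_mul, div_inv_eq_mul, div_inv_eq_mul]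
    have f1 : 2 * (16 * Y ^ 100) ≤ Y ^ α := by
      calc 2 * (16 * Y ^ 100) = 32 * Y ^ 100 := by ring
        _ ≤ Y * Y ^ 100 := by
            refine mul_le_mul_of_nonneg_right ?_ (by positivity)
            linarith
        _ = Y ^ 101 := by ring
        _ ≤ Y ^ α := h.pw (by omega)
    have f2 : (2 * (16 * Y ^ 100) + 4 * Y ^ α) ^ 3 ≤ (5 * Y ^ α) ^ 3 := by
      refine pow_le_pow_left₀ (by positivity) ?_ 3
      linarith
    have f3 : (5 * Y ^ α) ^ 3 = 125 * Y ^ (3 * α) := by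
      rw [mul_pow, ← pow_mul, mul_comm α 3]; norm_num
    have f4 : c * (2 * (16 * Y ^ 100) + 4 * Y ^ α) ^ 3 ≤ (Y / 9000) * (125 * Y ^ (3 * α)) := by
      rw [← f3]
      exact mul_le_mul hc1 f2 (by positivity) (by positivity)
    have f5 : Y ^ α ≤ Y ^ (3 * α) := h.pw (by omega)
    have f6 : 2 * Y * Y ^ α ≤ 2 * Y * Y ^ (3 * α) := by gcongr
    have f7 : Y ^ (3 * α + 2) = Y * (Y * Y ^ (3 * α)) := by rw [pow_add]; ring
    rw [f7]
    have f8 : 0 ≤ Y * Y ^ (3 * α) := by positivity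
    nlinarith
  have hη0 : (Y ^ 2000)⁻¹ ≤ (Y ^ hh)⁻¹ := hinv (by omega)
  have hmain := h.lvl hη0 ((hsmall (by omega)).trans (by norm_num)) (om := (Y ^ α)⁻¹)
    (Dt := (Y ^ β)⁻¹) (La := La) (by positivity) (hinv hβ)
    (by
      have f1 : Y * (Y ^ hh)⁻¹ = (Y ^ (hh - 1))⁻¹ := by
        have : Y ^ hh = Y * Y ^ (hh - 1) := by
          rw [← pow_succ']; congr 1; omega
        rw [this]
        field_simp
      rw [f1]
      exact hinv (by omega))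
    (by
      intro hlt
      rcases Nat.eq_zero_or_pos β with h0 | h0
      · rw [h0, pow_zero, inv_one] at hlt
        exact absurd hlt (lt_irrefl _)
      · exact hsmall h0)
    (inv_le_one_of_one_le₀ (one_le_pow₀ hY1)) hLa1 hF hg hg2 hQ'
  refine hmain.trans ?_
  have g1 : (Y ^ β)⁻¹ * ((Y ^ hh)⁻¹ * La * Y ^ 8) ≤ (Y ^ 508)⁻¹ := by
    calc (Y ^ β)⁻¹ * ((Y ^ hh)⁻¹ * La * Y ^ 8) ≤
        (Y ^ β)⁻¹ * ((Y ^ hh)⁻¹ * Y ^ (3 * α + 2) * Y ^ 8) := by gcongr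
      _ = (Y ^ 510)⁻¹ := by
          have f1 : Y ^ (3 * α + 2) * Y ^ 8 * Y ^ 510 = Y ^ β * Y ^ hh := by
            rw [← pow_add, ← pow_add, ← pow_add]
            congr 1
            omega
          have f2 : (Y ^ 510 : ℝ) ≠ 0 := by positivity
          have f3 : (Y ^ β : ℝ) ≠ 0 := by positivity
          have f4 : (Y ^ hh : ℝ) ≠ 0 := by positivity
          refine eq_inv_of_mul_eq_one_left ?_
          calc (Y ^ β)⁻¹ * ((Y ^ hh)⁻¹ * Y ^ (3 * α + 2) * Y ^ 8) * Y ^ 510 =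
              (Y ^ β)⁻¹ * (Y ^ hh)⁻¹ * (Y ^ (3 * α + 2) * Y ^ 8 * Y ^ 510) := by ring
            _ = 1 := by rw [f1]; field_simp
      _ ≤ (Y ^ 508)⁻¹ := hinv (by norm_num)
  have g2 : (Y ^ β)⁻¹ * (1 / (Y ^ hh)⁻¹ * (Y ^ 5 / Y ^ 1999)) ≤ (Y ^ 508)⁻¹ := by
    rw [one_div, inv_inv, inv_mul_le_iff₀ (by positivity), mul_div_assoc',
      div_le_iff₀ (by positivity), ← pow_add]
    have f1 : Y ^ (hh + 5) * Y ^ 508 ≤ Y ^ β * Y ^ 1999 := by
      rw [← pow_add, ← pow_add]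
      exact h.pw (by omega)
    have f2 : Y ^ β * (Y ^ 508)⁻¹ * Y ^ 1999 = Y ^ β * Y ^ 1999 / Y ^ 508 := by ring
    rw [f2, le_div_iff₀ (by positivity)]
    exact f1
  have g3 : (Y ^ 508)⁻¹ + (Y ^ 508)⁻¹ ≤ (Y ^ 507)⁻¹ := by
    have f1 : (Y ^ 507)⁻¹ = Y * (Y ^ 508)⁻¹ := by
      have : Y ^ 508 = Y * Y ^ 507 := by ring
      rw [this]
      field_simp
    rw [f1]
    have : 0 < (Y ^ 508)⁻¹ := by positivity
    nlinarith
  rw [mul_add]
  linarith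

/-- the support of the coefficients -/
theorem O2P.csupp (h : O2P G U c Y x V N Q Dl R P θ a) {n : ℕ} (hn : LSP.CY P θ a n ≠ 0) :
    (n : ℝ) ≤ 4 * (x * Y ^ 100) := by
  by_contra hh
  apply hn
  unfold LSP.CY
  refine sum_eq_zero fun p hp => ?_
  split_ifs with hd
  · obtain ⟨m, rfl⟩ := hd
    have hp1 := (h.pr p hp).1.one_lt.le
    rw [Nat.mul_div_cancel_left m hp1]
    have : a m = 0 := by
      by_contra h1
      apply hh
      push_cast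
      exact h.pm hp (h.sp m h1)
    rw [this, mul_zero]
  · rfl

/-- the hyperbola formula for the arguments -/
theorem O2P.hypf (h : O2P G U c Y x V N Q Dl R P θ a) {n : ℕ} (hn0 : 1 ≤ n)
    (hn : (n : ℝ) ≤ 4 * (x * Y ^ 100)) {g : ℤ} (hu : |(g : ℝ) * N / n| ≤ U)
    (hk : (n : ℤ) - g * N ≠ 0) :
    LSPO.tau ((n : ℤ) - g * N).natAbs - 2 * (∑ c ∈ Icc 1 R, LSP.wc Dl c ((n : ℝ) - g * N) *
      FG61.cc c ((n : ℤ) - g * N).natAbs) =
      2 * HH Dl R ((n : ℤ) - g * N) (Real.log |(n : ℝ) - g * N| / 2) := by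
  have hY := h.Y0
  have hx0 := h.x0
  have hN0 := h.N0
  have hU := h.ok.one_le
  have hn0' : (0 : ℝ) < n := by exact_mod_cast hn0
  set k : ℤ := (n : ℤ) - g * N with hk'
  have hk0 : k.natAbs ≠ 0 := Int.natAbs_ne_zero.2 hk
  have hk1 : 1 ≤ k.natAbs := Nat.one_le_iff_ne_zero.2 hk0
  have e1 : ((k.natAbs : ℕ) : ℝ) = |(n : ℝ) - g * N| := by
    rw [Nat.cast_natAbs, hk']
    push_cast
    rfl
  have e2 := LSPO.tau_hyp hk1
  rw [e1] at e2
  rw [e2]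
  unfold HH LSP.wc
  have e3 : ∑ d ∈ k.natAbs.divisors, LSPO.hyp (Real.log d - Real.log |(n : ℝ) - g * N| / 2) =
      ∑ d ∈ (Icc 1 Dl).filter (fun d : ℕ => (d : ℤ) ∣ k),
        LSPO.hyp (Real.log d - Real.log |(n : ℝ) - g * N| / 2) := by
    have f0 : (Icc 1 Dl).filter (fun d : ℕ => (d : ℤ) ∣ k) ⊆ k.natAbs.divisors := by
      intro d hd
      rw [mem_filter] at hd
      rw [Nat.mem_divisors]
      exact ⟨Int.natCast_dvd.1 hd.2, hk0⟩
    symm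
    refine sum_subset f0 fun d hd hd' => ?_
    have hdv := Nat.dvd_of_mem_divisors hd
    have hd0 : 0 < d := Nat.pos_of_mem_divisors hd
    have hdD : Dl < d := by
      by_contra hh
      push Not at hh
      exact hd' (by
        rw [mem_filter, mem_Icc]
        exact ⟨⟨hd0, hh⟩, Int.natCast_dvd.2 hdv⟩)
    refine LSPO.hyp_eq_zero ?_
    -- size of k
    have f1 : |(n : ℝ) - g * N| ≤ (1 + U) * (4 * (x * Y ^ 100)) := by
      have g1 : |(g : ℝ) * N| ≤ U * n := by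
        rw [abs_div, abs_of_pos hn0', div_le_iff₀ hn0'] at hu
        exact hu
      calc |(n : ℝ) - g * N| ≤ |(n : ℝ)| + |(g : ℝ) * N| := abs_sub _ _
        _ ≤ n + U * n := by rw [abs_of_pos hn0']; linarith
        _ = (1 + U) * n := by ring
        _ ≤ _ := mul_le_mul_of_nonneg_left hn (by linarith)
    have f2 : 0 < |(n : ℝ) - g * N| := by
      rw [← e1]
      exact_mod_cast hk1
    have f3 : 3 * |(n : ℝ) - g * N| ≤ (d : ℝ) ^ 2 := by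
      have g1 : (Dl : ℝ) ^ 2 ≤ (d : ℝ) ^ 2 := by
        have : (Dl : ℝ) ≤ d := by exact_mod_cast hdD.le
        gcongr
      have g2 := h.D1
      have g3 : 0 < (1 + U) * (x * Y ^ 100) := by positivity
      nlinarith
    have f4 : Real.log (3 * |(n : ℝ) - g * N|) ≤ Real.log ((d : ℝ) ^ 2) :=
      Real.log_le_log (by positivity) f3
    rw [Real.log_mul (by norm_num) f2.ne', Real.log_pow] at f4
    have f5 : 1 ≤ Real.log 3 := by
      rw [Real.le_log_iff_exp_le (by norm_num)]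
      have := Real.exp_one_lt_d9
      linarith
    push_cast at f4
    linarith
  rw [e3]
  ring

/-- one `g` -/
theorem O2P.perg (h : O2P G U c Y x V N Q Dl R P θ a) {g : ℤ} (hg : g ≠ 0)
    (hg2 : |(g : ℝ)| ≤ Y ^ 102) {Q' : ℕ} (hQ' : 4 * (x * Y ^ 100) ≤ Q') :
    |∑ n ∈ Icc 1 Q', LSP.CY P θ a n * (LSPO.tau ((n : ℤ) - g * N).natAbs * G ((g : ℝ) * N / n) -
      2 * (KK G (Y ^ 600)⁻¹ ((g : ℝ) * N / n) * ∑ c ∈ Icc 1 R, LSP.wc Dl c ((n : ℝ) - g * N) *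
        FG61.cc c ((n : ℤ) - g * N).natAbs))| ≤ (Y ^ 506)⁻¹ := by
  have hY := h.Y0
  have hY1 := h.Y1
  have hY2 := h.Y2
  have hinv : ∀ {i j : ℕ}, i ≤ j → (Y ^ j)⁻¹ ≤ (Y ^ i)⁻¹ := fun {i j} hij =>
    inv_anti₀ (by positivity) (h.pw hij)
  have hlev : ∀ α : ℕ, α ≤ 600 → ∀ v : ℝ, (16 * Y ^ 100)⁻¹ ≤ |v| → (Y ^ α)⁻¹ / 2 ≤ |1 - v| →
      |G v| ≤ Y := fun α hα v h1 h2 => h.M hα v h1 h2
  have ha0 : 0 < (16 * Y ^ 100)⁻¹ := by positivity
  have L0 := lev_mid h.ok ha0 (om := (Y ^ 600)⁻¹) (om' := (Y ^ 420)⁻¹) (by positivity)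
    (hinv (by norm_num)) hY.le (hlev 600 (by norm_num))
  have L1 := lev_mid h.ok ha0 (om := (Y ^ 420)⁻¹) (om' := (Y ^ 160)⁻¹) (by positivity)
    (hinv (by norm_num)) hY.le (hlev 420 (by norm_num))
  have L2 := lev_top h.ok ha0 (om := (Y ^ 160)⁻¹) (by positivity) hY.le (hlev 160 (by norm_num))
  have L2' : Lev U (16 * Y ^ 100)⁻¹ (Y ^ 160)⁻¹ (Y ^ 0)⁻¹ Y
      (c * (2 / (16 * Y ^ 100)⁻¹ + 4 / (Y ^ 160)⁻¹) ^ 3 + 2 * Y / (Y ^ 160)⁻¹)
      (fun u => G u * cl (Y ^ 160)⁻¹ u) := by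
    rw [pow_zero, inv_one]
    exact L2
  have B0 := h.lev (α := 600) (β := 420) (hh := 1900) (by norm_num) (by norm_num) (by norm_num)
    (by norm_num) (by norm_num) (by norm_num) L0 hg hg2 hQ'
  have B1 := h.lev (α := 420) (β := 160) (hh := 1620) (by norm_num) (by norm_num) (by norm_num)
    (by norm_num) (by norm_num) (by norm_num) L1 hg hg2 hQ'
  have B2 := h.lev (α := 160) (β := 0) (hh := 1000) (by norm_num) (by norm_num) (by norm_num)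
    (by norm_num) (by norm_num) (by norm_num) L2' hg hg2 hQ'
  have BC := h.cut hg hQ'
  set T0 := ∑ n ∈ Icc 1 Q', LSP.CY P θ a n * ((fun u => G u * (cl (Y ^ 600)⁻¹ u - cl (Y ^ 420)⁻¹ u))
    ((g : ℝ) * N / n) * HH Dl R ((n : ℤ) - g * N) (Real.log |(n : ℝ) - g * N| / 2)) with hT0
  set T1 := ∑ n ∈ Icc 1 Q', LSP.CY P θ a n * ((fun u => G u * (cl (Y ^ 420)⁻¹ u - cl (Y ^ 160)⁻¹ u))
    ((g : ℝ) * N / n) * HH Dl R ((n : ℤ) - g * N) (Real.log |(n : ℝ) - g * N| / 2)) with hT1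
  set T2 := ∑ n ∈ Icc 1 Q', LSP.CY P θ a n * ((fun u => G u * cl (Y ^ 160)⁻¹ u)
    ((g : ℝ) * N / n) * HH Dl R ((n : ℤ) - g * N) (Real.log |(n : ℝ) - g * N| / 2)) with hT2
  set T3 := ∑ n ∈ Icc 1 Q', LSP.CY P θ a n * (LSPO.tau ((n : ℤ) - g * N).natAbs *
      (G ((g : ℝ) * N / n) - LSPO.KK G (Y ^ 600)⁻¹ ((g : ℝ) * N / n))) with hT3
  have hsum : ∑ n ∈ Icc 1 Q', LSP.CY P θ a n *
      (LSPO.tau ((n : ℤ) - g * N).natAbs * G ((g : ℝ) * N / n) -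
      2 * (KK G (Y ^ 600)⁻¹ ((g : ℝ) * N / n) * ∑ c ∈ Icc 1 R, LSP.wc Dl c ((n : ℝ) - g * N) *
        FG61.cc c ((n : ℤ) - g * N).natAbs)) = T3 + 2 * (T0 + T1 + T2) := by
    rw [hT0, hT1, hT2, hT3, ← sum_add_distrib, ← sum_add_distrib, mul_sum, ← sum_add_distrib]
    refine sum_congr rfl fun n hn => ?_
    rw [mem_Icc] at hn
    have hn0 : (0 : ℝ) < n := by exact_mod_cast hn.1
    by_cases hC : LSP.CY P θ a n = 0
    · rw [hC]; ring
    have hnx := h.csupp hC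
    by_cases hK : KK G (Y ^ 600)⁻¹ ((g : ℝ) * N / n) = 0
    · have e1 : G ((g : ℝ) * N / n) * (cl (Y ^ 600)⁻¹ ((g : ℝ) * N / n)) = 0 := hK
      -- the larger cuts vanish as well
      have e2 : ∀ j : ℕ, j ≤ 600 → G ((g : ℝ) * N / n) * cl (Y ^ j)⁻¹ ((g : ℝ) * N / n) = 0 := by
        intro j hj
        rcases mul_eq_zero.1 e1 with h1 | h1
        · rw [h1, zero_mul]
        · have f1 := cl_anti (om := (Y ^ 600)⁻¹) (om' := (Y ^ j)⁻¹) (by positivity) (hinv hj)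
            ((g : ℝ) * N / n)
          rw [h1] at f1
          have f2 := LSPO.cl_nonneg (Y ^ j)⁻¹ ((g : ℝ) * N / n)
          have f3 : cl (Y ^ j)⁻¹ ((g : ℝ) * N / n) = 0 := le_antisymm f1 f2
          rw [f3, mul_zero]
      have e3 := e2 420 (by norm_num)
      have e4 := e2 160 (by norm_num)
      simp only [mul_sub, e1, e3, e4, hK]
      ring
    · have hu : |(g : ℝ) * N / n| ≤ U := by
        by_contra hh
        push Not at hh
        apply hK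
        unfold KK
        rw [h.ok.supp _ hh, zero_mul]
      have hk : (n : ℤ) - g * N ≠ 0 := by
        intro h0
        apply hK
        unfold KK
        have e1 : (g : ℝ) * N = n := by
          have : ((n : ℤ) : ℝ) - g * N = 0 := by exact_mod_cast h0
          push_cast at this
          linarith
        rw [e1, div_self hn0.ne', LSPO.cl_eq_zero (by positivity)
          (by rw [sub_self, abs_zero]; positivity), mul_zero]
      have e1 := h.hypf hn.1 hnx hu hk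
      have e2 : KK G (Y ^ 600)⁻¹ ((g : ℝ) * N / n) =
          G ((g : ℝ) * N / n) * (cl (Y ^ 600)⁻¹ ((g : ℝ) * N / n)) := rfl
      have e3 : KK G (Y ^ 600)⁻¹ ((g : ℝ) * N / n) *
          (LSPO.tau ((n : ℤ) - g * N).natAbs - 2 * (∑ c ∈ Icc 1 R,
            LSP.wc Dl c ((n : ℝ) - g * N) * FG61.cc c ((n : ℤ) - g * N).natAbs)) =
          KK G (Y ^ 600)⁻¹ ((g : ℝ) * N / n) *
          (2 * HH Dl R ((n : ℤ) - g * N) (Real.log |(n : ℝ) - g * N| / 2)) := by rw [e1]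
      simp only
      rw [e2] at e3 ⊢
      linear_combination (LSP.CY P θ a n) * e3
  rw [hsum]
  have g1 : |T3 + 2 * (T0 + T1 + T2)| ≤ |T3| + 2 * (|T0| + |T1| + |T2|) := by
    refine (abs_add_le _ _).trans ?_
    rw [abs_mul, abs_of_pos (by norm_num : (0 : ℝ) < 2)]
    have := abs_add_three T0 T1 T2
    linarith
  refine g1.trans ?_
  have g2 : (Y ^ 590)⁻¹ ≤ (Y ^ 507)⁻¹ := hinv (by norm_num)
  have g3 : (Y ^ 506)⁻¹ = Y * (Y ^ 507)⁻¹ := by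
    have : Y ^ 507 = Y * Y ^ 506 := by ring
    rw [this]
    field_simp
  rw [g3]
  have g4 : 0 < (Y ^ 507)⁻¹ := by positivity
  have g5 : 6000 * (Y ^ 507)⁻¹ ≤ Y * (Y ^ 507)⁻¹ := mul_le_mul_of_nonneg_right hY2 g4.le
  linarith

/-- large `g` do not occur -/
theorem O2P.farg (h : O2P G U c Y x V N Q Dl R P θ a) {g : ℤ} (hg2 : Y ^ 102 < |(g : ℝ)|) {Q' : ℕ} :
    ∑ n ∈ Icc 1 Q', LSP.CY P θ a n * (LSPO.tau ((n : ℤ) - g * N).natAbs * G ((g : ℝ) * N / n) -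
      2 * (KK G (Y ^ 600)⁻¹ ((g : ℝ) * N / n) * ∑ c ∈ Icc 1 R, LSP.wc Dl c ((n : ℝ) - g * N) *
        FG61.cc c ((n : ℤ) - g * N).natAbs)) = 0 := by
  have hY := h.Y0
  have hY2 := h.Y2
  have hx0 := h.x0
  have hN0 := h.N0
  have hU1 := h.U1
  refine sum_eq_zero fun n hn => ?_
  rw [mem_Icc] at hn
  have hn0 : (0 : ℝ) < n := by exact_mod_cast hn.1
  by_cases hC : LSP.CY P θ a n = 0
  · rw [hC, zero_mul]
  have hnx := h.csupp hC
  have hu : U < |(g : ℝ) * N / n| := by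
    rw [abs_div, abs_mul, abs_of_pos hN0, abs_of_pos hn0, lt_div_iff₀ hn0]
    have e1 : U * n ≤ (Y / 2000) * (4 * (x * Y ^ 100)) := by
      refine mul_le_mul hU1 hnx hn0.le (by positivity)
    have e2 : Y ^ 102 * (x / 4) ≤ |(g : ℝ)| * N := by
      refine mul_le_mul hg2.le ?_ (by positivity) (abs_nonneg _)
      linarith [h.N1]
    have e3 : (Y / 2000) * (4 * (x * Y ^ 100)) = (x * Y ^ 101) / 500 := by ring
    have e4 : Y ^ 102 * (x / 4) = Y * (x * Y ^ 101) / 4 := by ring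
    have e5 : 0 < x * Y ^ 101 := by positivity
    nlinarith
  have hG := h.ok.supp _ hu
  unfold KK
  rw [hG]
  ring

/-- the off-diagonal at a fixed prime level -/
theorem O2P.fin (h : O2P G U c Y x V N Q Dl R P θ a) (S : Finset ℤ) (hS : ∀ g ∈ S, g ≠ 0)
    {Q' : ℕ} (hQ' : 4 * (x * Y ^ 100) ≤ Q') :
    |LSPO.ODg (LSP.CY P θ a) G Q' S N - LSP.SMg (LSP.CY P θ a) G (Y ^ 600)⁻¹ Q' S Dl R N| ≤
      (Y ^ 400)⁻¹ := by
  have hY := h.Y0
  have hY1 := h.Y1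
  have hY2 := h.Y2
  have e1 : LSPO.ODg (LSP.CY P θ a) G Q' S N -
      LSP.SMg (LSP.CY P θ a) G (Y ^ 600)⁻¹ Q' S Dl R N =
      2 * Real.pi * ∑ g ∈ S, LSPO.tau g.natAbs * ∑ n ∈ Icc 1 Q', LSP.CY P θ a n *
        (LSPO.tau ((n : ℤ) - g * N).natAbs * G ((g : ℝ) * N / n) -
      2 * (KK G (Y ^ 600)⁻¹ ((g : ℝ) * N / n) * ∑ c ∈ Icc 1 R, LSP.wc Dl c ((n : ℝ) - g * N) *
        FG61.cc c ((n : ℤ) - g * N).natAbs)) := by
    unfold LSPO.ODg LSP.SMg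
    have f1 : (4 : ℝ) * Real.pi = 2 * Real.pi * 2 := by ring
    rw [f1, mul_assoc (2 * Real.pi) 2, ← mul_sub]
    congr 1
    rw [mul_sum, ← sum_sub_distrib]
    have f2 : ∀ n ∈ Icc 1 Q', LSP.CY P θ a n * ∑ g ∈ S, LSPO.tau g.natAbs *
        LSPO.tau ((n : ℤ) - g * N).natAbs * G ((g : ℝ) * N / n) -
        2 * (LSP.CY P θ a n * ∑ g ∈ S, LSP.tau g.natAbs *
          (KK G (Y ^ 600)⁻¹ ((g : ℝ) * N / n) * ∑ c ∈ Icc 1 R, LSP.wc Dl c ((n : ℝ) - g * N) *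
            FG61.cc c ((n : ℤ) - g * N).natAbs)) =
        ∑ g ∈ S, LSPO.tau g.natAbs * (LSP.CY P θ a n *
        (LSPO.tau ((n : ℤ) - g * N).natAbs * G ((g : ℝ) * N / n) -
      2 * (KK G (Y ^ 600)⁻¹ ((g : ℝ) * N / n) * ∑ c ∈ Icc 1 R, LSP.wc Dl c ((n : ℝ) - g * N) *
        FG61.cc c ((n : ℤ) - g * N).natAbs))) := by
      intro n _
      rw [mul_sum, mul_sum, mul_sum, ← sum_sub_distrib]
      refine sum_congr rfl fun g _ => ?_
      have f3 : LSP.tau g.natAbs = LSPO.tau g.natAbs := rfl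
      rw [f3]
      ring
    rw [sum_congr rfl f2, sum_comm]
    exact sum_congr rfl fun g _ => by rw [mul_sum]
  rw [e1, abs_mul, abs_of_pos (by positivity)]
  have e2 : |∑ g ∈ S, LSPO.tau g.natAbs * ∑ n ∈ Icc 1 Q', LSP.CY P θ a n *
        (LSPO.tau ((n : ℤ) - g * N).natAbs * G ((g : ℝ) * N / n) -
      2 * (KK G (Y ^ 600)⁻¹ ((g : ℝ) * N / n) * ∑ c ∈ Icc 1 R, LSP.wc Dl c ((n : ℝ) - g * N) *
        FG61.cc c ((n : ℤ) - g * N).natAbs))| ≤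
      ∑ g ∈ S.filter (fun g : ℤ => |(g : ℝ)| ≤ Y ^ 102), Y * (Y ^ 506)⁻¹ := by
    rw [sum_filter]
    refine (abs_sum_le_sum_abs _ _).trans (sum_le_sum fun g hg => ?_)
    have hg0 := hS g hg
    split_ifs with hg2
    · rw [abs_mul]
      have f1 : 0 ≤ LSPO.tau g.natAbs := by unfold LSPO.tau; positivity
      rw [abs_of_nonneg f1]
      refine mul_le_mul ?_ (h.perg hg0 hg2 hQ') (abs_nonneg _) hY.le
      refine h.ta _ (Nat.one_le_iff_ne_zero.2 (Int.natAbs_ne_zero.2 hg0)) ?_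
      have f2 : ((g.natAbs : ℕ) : ℝ) = |(g : ℝ)| := by
        rw [Nat.cast_natAbs]; push_cast; rfl
      rw [f2]
      have f3 : Y ^ 102 ≤ x := h.pwx (by norm_num)
      have f4 : x ≤ x ^ 2 := by nlinarith [h.x1]
      linarith
    · rw [h.farg (not_le.1 hg2), mul_zero, abs_zero]
  have e3 : (((S.filter (fun g : ℤ => |(g : ℝ)| ≤ Y ^ 102)).card : ℕ) : ℝ) ≤ 2 * Y ^ 102 + 1 :=
    LSPO.card_int_le _ _ (by positivity) (fun g hg => (mem_filter.1 hg).2)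
  rw [sum_const, nsmul_eq_mul] at e2
  calc 2 * Real.pi * _ ≤ 2 * Real.pi *
        ((((S.filter (fun g : ℤ => |(g : ℝ)| ≤ Y ^ 102)).card : ℕ) : ℝ) * (Y * (Y ^ 506)⁻¹)) :=
        mul_le_mul_of_nonneg_left e2 (by positivity)
    _ ≤ 2 * 4 * ((2 * Y ^ 102 + 1) * (Y * (Y ^ 506)⁻¹)) := by
        have hpi := Real.pi_lt_four
        gcongr
    _ ≤ 2 * 4 * ((3 * Y ^ 102) * (Y * (Y ^ 506)⁻¹)) := by
        have : 1 ≤ Y ^ 102 := one_le_pow₀ hY1
        have h2 : 2 * Y ^ 102 + 1 ≤ 3 * Y ^ 102 := by linarith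
        gcongr
    _ = 24 * (Y ^ 403)⁻¹ := by
        rw [show Y ^ 506 = Y ^ 103 * Y ^ 403 by ring]
        field_simp
        ring
    _ ≤ Y * (Y ^ 403)⁻¹ := by
        refine mul_le_mul_of_nonneg_right (by linarith) (by positivity)
    _ = (Y ^ 402)⁻¹ := by
        rw [show Y ^ 403 = Y * Y ^ 402 by ring]
        field_simp
    _ ≤ (Y ^ 400)⁻¹ := inv_anti₀ (by positivity) (h.pw (by norm_num))

end

end Pool.Agent.LSPO2
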