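import Pool.Agent.Lib_helper31.LSP.Ker
import Pool.Agent.Lib_helper31.LSP2.Lam

/-! LSP2, part O2: the kernel on one level of distances from the singularity, and freezing. -/

set_option autoImplicit false

namespace Pool.Agent.LSPO2

open Pool.Agent.LSPO (hyp cl KK GOK cl_nonneg cl_le_one cl_eq_zero cl_eq_one cl_lip log_sub_le)
open Finset

/-- a kernel on one level -/
structure Lev (U a om Dt M La : ℝ) (F : ℝ → ℝ) : Prop where
  supp : ∀ u, U < |u| → F u = 0
  cut : ∀ u, |1 - u| ≤ om → F u = 0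
  cut' : Dt < 1 → ∀ u, 2 * Dt ≤ |1 - u| → F u = 0
  bd : ∀ u, a ≤ |u| → |F u| ≤ M
  lip : ∀ u v, a ≤ |u| → a ≤ |v| → |u - v| ≤ om / 2 → |F u - F v| ≤ La * |u - v|

theorem cl_anti {om om' : ℝ} (h0 : 0 < om) (h : om ≤ om') (u : ℝ) : cl om' u ≤ cl om u := by
  unfold cl
  refine max_le_max le_rfl (min_le_min le_rfl ?_)
  have : |1 - u| / om' ≤ |1 - u| / om := div_le_div_of_nonneg_left (abs_nonneg _) h0 h
  linarith

/-- the levels of a kernel -/
theorem lev_gen {G : ℝ → ℝ} {U c : ℝ} (hG : GOK G U c) {a om M Dt : ℝ} (ha : 0 < a)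
    (hom : 0 < om) (hM0 : 0 ≤ M)
    (hM : ∀ v : ℝ, a ≤ |v| → om / 2 ≤ |1 - v| → |G v| ≤ M) {w : ℝ → ℝ} (hw0 : ∀ u, 0 ≤ w u)
    (hw1 : ∀ u, w u ≤ 1) (hwl : ∀ u v, |w u - w v| ≤ 2 * (|u - v| / om))
    (hwc : ∀ u, |1 - u| ≤ om → w u = 0) (hwd : Dt < 1 → ∀ u, 2 * Dt ≤ |1 - u| → w u = 0) :
    Lev U a om Dt M (c * (2 / a + 4 / om) ^ 3 + 2 * M / om) (fun u => G u * w u) where
  supp u hu := by
    show G u * w u = 0
    rw [hG.supp u hu, zero_mul]
  cut u hu := by
    show G u * w u = 0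
    rw [hwc u hu, mul_zero]
  cut' hd u hu := by
    show G u * w u = 0
    rw [hwd hd u hu, mul_zero]
  bd u hu := by
    show |G u * w u| ≤ M
    by_cases h : om / 2 ≤ |1 - u|
    · rw [abs_mul, abs_of_nonneg (hw0 u)]
      calc |G u| * w u ≤ M * 1 := mul_le_mul (hM u hu h) (hw1 u) (hw0 u) hM0
        _ = M := mul_one _
    · push Not at h
      rw [hwc u (by linarith), mul_zero, abs_zero]
      exact hM0
  lip u v hu hv huv := by
    show |G u * w u - G v * w v| ≤ _
    have hc := hG.one_le'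
    have hR : 0 ≤ (c * (2 / a + 4 / om) ^ 3 + 2 * M / om) * |u - v| := by positivity
    by_cases hcase : |1 - u| ≤ om ∧ |1 - v| ≤ om
    · rw [hwc u hcase.1, hwc v hcase.2]
      simpa using hR
    have hnear : |(|1 - u| - |1 - v|)| ≤ |u - v| := by
      refine (abs_abs_sub_abs_le_abs_sub _ _).trans (le_of_eq ?_)
      rw [show (1 - u - (1 - v) : ℝ) = -(u - v) by ring, abs_neg]
    rw [abs_le] at hnear
    have h1u : om / 2 ≤ |1 - u| := by
      by_contra hh
      push Not at hh
      exact hcase ⟨by linarith, by linarith [hnear.1]⟩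
    have h1v : om / 2 ≤ |1 - v| := by
      by_contra hh
      push Not at hh
      exact hcase ⟨by linarith [hnear.2], by linarith⟩
    have hom2 : 0 < om / 2 := by positivity
    have hu0 : u ≠ 0 := by
      intro h
      rw [h, abs_zero] at hu
      linarith
    have hu1 : u ≠ 1 := by
      intro h
      rw [h, sub_self, abs_zero] at h1u
      linarith
    have hv0 : v ≠ 0 := by
      intro h
      rw [h, abs_zero] at hv
      linarith
    have hv1 : v ≠ 1 := by
      intro h
      rw [h, sub_self, abs_zero] at h1v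
      linarith
    have e1 : |G u - G v| ≤ c * (2 / a + 4 / om) ^ 3 * |u - v| := by
      refine (hG.lip u v hu0 hu1 hv0 hv1).trans ?_
      have f1 : |u|⁻¹ ≤ 1 / a := by
        rw [inv_eq_one_div]
        exact one_div_le_one_div_of_le ha hu
      have f2 : |v|⁻¹ ≤ 1 / a := by
        rw [inv_eq_one_div]
        exact one_div_le_one_div_of_le ha hv
      have f3 : |1 - u|⁻¹ ≤ 2 / om := by
        rw [inv_eq_one_div]
        calc 1 / |1 - u| ≤ 1 / (om / 2) := one_div_le_one_div_of_le hom2 h1u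
          _ = 2 / om := by field_simp
      have f4 : |1 - v|⁻¹ ≤ 2 / om := by
        rw [inv_eq_one_div]
        calc 1 / |1 - v| ≤ 1 / (om / 2) := one_div_le_one_div_of_le hom2 h1v
          _ = 2 / om := by field_simp
      have f5 : |u|⁻¹ + |1 - u|⁻¹ + |v|⁻¹ + |1 - v|⁻¹ ≤ 2 / a + 4 / om := by
        have g1 : (2 : ℝ) / a = 1 / a + 1 / a := by ring
        have g2 : (4 : ℝ) / om = 2 / om + 2 / om := by ring
        linarith
      have f6 : 0 ≤ |u|⁻¹ + |1 - u|⁻¹ + |v|⁻¹ + |1 - v|⁻¹ := by positivity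
      calc c * |u - v| * (|u|⁻¹ + |1 - u|⁻¹ + |v|⁻¹ + |1 - v|⁻¹) ^ 3
          ≤ c * |u - v| * (2 / a + 4 / om) ^ 3 := by gcongr
        _ = c * (2 / a + 4 / om) ^ 3 * |u - v| := by ring
    have e2 : |G v| ≤ M := hM v hv h1v
    have f1 : G u * w u - G v * w v = (G u - G v) * w u + G v * (w u - w v) := by ring
    rw [f1]
    refine (abs_add_le _ _).trans ?_
    rw [abs_mul, abs_mul, abs_of_nonneg (hw0 u)]
    have g1 : |G u - G v| * w u ≤ c * (2 / a + 4 / om) ^ 3 * |u - v| :=
      (mul_le_of_le_one_right (abs_nonneg _) (hw1 u)).trans e1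
    have g2 : |G v| * |w u - w v| ≤ M * (2 * (|u - v| / om)) :=
      mul_le_mul e2 (hwl u v) (abs_nonneg _) hM0
    have g3 : (c * (2 / a + 4 / om) ^ 3 + 2 * M / om) * |u - v| =
      c * (2 / a + 4 / om) ^ 3 * |u - v| + M * (2 * (|u - v| / om)) := by ring
    linarith

/-- a level between two cuts -/
theorem lev_mid {G : ℝ → ℝ} {U c : ℝ} (hG : GOK G U c) {a om om' M : ℝ} (ha : 0 < a)
    (hom : 0 < om) (ho : om ≤ om') (hM0 : 0 ≤ M)
    (hM : ∀ v : ℝ, a ≤ |v| → om / 2 ≤ |1 - v| → |G v| ≤ M) :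
    Lev U a om om' M (c * (2 / a + 4 / om) ^ 3 + 2 * M / om)
      (fun u => G u * (cl om u - cl om' u)) := by
  have ho0 : 0 < om' := hom.trans_le ho
  refine lev_gen hG ha hom hM0 hM (fun u => ?_) (fun u => ?_) (fun u v => ?_) (fun u hu => ?_)
    (fun _ u hu => ?_)
  · have := cl_anti hom ho u
    linarith
  · have h1 := cl_le_one om u
    have h2 := cl_nonneg om' u
    linarith
  · have h1 : cl om u - cl om' u - (cl om v - cl om' v) =
        (cl om u - cl om v) - (cl om' u - cl om' v) := by ring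
    rw [h1]
    refine (abs_sub _ _).trans ?_
    have h2 := cl_lip hom u v
    have h3 := cl_lip ho0 u v
    have h4 : |u - v| / om' ≤ |u - v| / om := div_le_div_of_nonneg_left (abs_nonneg _) hom ho
    linarith
  · rw [cl_eq_zero hom hu, cl_eq_zero ho0 (hu.trans ho), sub_self]
  · rw [cl_eq_one hom (by linarith), cl_eq_one ho0 hu, sub_self]

/-- the level away from the singularity -/
theorem lev_top {G : ℝ → ℝ} {U c : ℝ} (hG : GOK G U c) {a om M : ℝ} (ha : 0 < a)
    (hom : 0 < om) (hM0 : 0 ≤ M)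
    (hM : ∀ v : ℝ, a ≤ |v| → om / 2 ≤ |1 - v| → |G v| ≤ M) :
    Lev U a om 1 M (c * (2 / a + 4 / om) ^ 3 + 2 * M / om) (fun u => G u * cl om u) := by
  refine lev_gen hG ha hom hM0 hM (fun u => cl_nonneg _ _) (fun u => cl_le_one _ _) (fun u v => ?_)
    (fun u hu => cl_eq_zero hom hu) (fun h => absurd h (lt_irrefl _))
  have h1 := cl_lip hom u v
  have h2 : 0 ≤ |u - v| / om := by positivity
  linarith

/-- freezing -/
theorem freeze {U a om Dt M La : ℝ} {F : ℝ → ℝ} (hF : Lev U a om Dt M La F) (hU : 1 ≤ U)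
    (ha : 0 < a) (hom : 0 < om) (hD : om ≤ Dt) (hM0 : 0 ≤ M) (hL : 0 ≤ La) {η : ℝ} (hη : 0 < η)
    (hη1 : η ≤ 1 / 4) (hη2 : 16 * U * η ≤ om) (Dl R : ℕ) {k : ℤ} (hk : k ≠ 0) {n ν t : ℝ}
    (hν : 0 < ν) (h1 : ν ≤ n) (h2 : Real.log n - Real.log ν ≤ 2 * η) (ht : a * n ≤ |t|) :
    |F (t / n) * HH Dl R k (Real.log |n - t| / 2) - F (t / ν) * HH Dl R k (Real.log |ν - t| / 2)| ≤
      (if Dt < 1 ∧ 3 * Dt < |1 - t / n| then 0 else 1) *
      (η * (8 * U * La + M * (1 + 8 * U / om)) *
        (LSPO.tau k.natAbs * (1 + (1 + Real.log Dl) * (1 + Real.log R)))) := by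
  set T := LSPO.tau k.natAbs * (1 + (1 + Real.log Dl) * (1 + Real.log R)) with hT
  have hT0 : 0 ≤ T := by
    have hlD : 0 ≤ Real.log Dl := Real.log_natCast_nonneg Dl
    have hlR : 0 ≤ Real.log R := Real.log_natCast_nonneg R
    have : 0 ≤ LSPO.tau k.natAbs := by unfold LSPO.tau; positivity
    positivity
  have hn : 0 < n := hν.trans_le h1
  have hX : 0 ≤ η * (8 * U * La + M * (1 + 8 * U / om)) * T := by positivity
  have hI : 0 ≤ (if Dt < 1 ∧ 3 * Dt < |1 - t / n| then (0 : ℝ) else 1) *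
      (η * (8 * U * La + M * (1 + 8 * U / om)) * T) := by
    split_ifs
    · rw [zero_mul]
    · rw [one_mul]; exact hX
  set u := t / n with hu
  set v := t / ν with hv
  have hua : |u| = |t| / n := by rw [hu, abs_div, abs_of_pos hn]
  have hva : |v| = |t| / ν := by rw [hv, abs_div, abs_of_pos hν]
  have ht0 : 0 < |t| := by
    refine lt_of_lt_of_le ?_ ht
    positivity
  have huv : |u| ≤ |v| := by
    rw [hua, hva]
    exact div_le_div_of_nonneg_left ht0.le hν h1
  have hu1 : a ≤ |u| := by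
    rw [hua, le_div_iff₀ hn]
    exact ht
  -- the quotient
  have hq : n / ν ≤ 1 + 4 * η := by
    have e1 : Real.log (n / ν) ≤ 2 * η := by rw [Real.log_div hn.ne' hν.ne']; exact h2
    have e2 : n / ν ≤ Real.exp (2 * η) := by
      rw [← Real.log_le_iff_le_exp (by positivity)]
      exact e1
    refine e2.trans ?_
    have e3 := Real.abs_exp_sub_one_le (show |2 * η| ≤ 1 by
      rw [abs_of_pos (by positivity)]; linarith)
    rw [abs_of_pos (show (0 : ℝ) < 2 * η by positivity)] at e3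
    have := le_abs_self (Real.exp (2 * η) - 1)
    linarith
  have hdiff : |u - v| ≤ 4 * η * |u| := by
    have e1 : v = u * (n / ν) := by rw [hu, hv]; field_simp
    have e2 : u - v = -(u * (n / ν - 1)) := by rw [e1]; ring
    have e3 : 0 ≤ n / ν - 1 := by
      have : 1 ≤ n / ν := by rw [le_div_iff₀ hν]; linarith
      linarith
    rw [e2, abs_neg, abs_mul, abs_of_nonneg e3]
    calc |u| * (n / ν - 1) ≤ |u| * (4 * η) :=
          mul_le_mul_of_nonneg_left (by linarith) (abs_nonneg _)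
      _ = 4 * η * |u| := by ring
  by_cases hbig : U < |u|
  · rw [hF.supp u hbig, hF.supp v (hbig.trans_le huv)]
    simpa using hI
  push Not at hbig
  have hs : |u - v| ≤ 4 * U * η := by
    refine hdiff.trans ?_
    nlinarith [abs_nonneg u]
  have hs2 : |u - v| ≤ om / 4 := by linarith
  have hnear : |(|1 - u| - |1 - v|)| ≤ |u - v| := by
    refine (abs_abs_sub_abs_le_abs_sub _ _).trans (le_of_eq ?_)
    rw [show (1 - u - (1 - v) : ℝ) = -(u - v) by ring, abs_neg]
  have hnear' := hnear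
  rw [abs_le] at hnear
  by_cases hfar : Dt < 1 ∧ 3 * Dt < |1 - u|
  · have hDt : om ≤ Dt := hD
    rw [hF.cut' hfar.1 u (by linarith [hfar.2]), hF.cut' hfar.1 v (by linarith [hfar.2, hnear.2])]
    simpa using hI
  rw [if_neg hfar, one_mul]
  by_cases hv0 : F v = 0 ∧ F u = 0
  · rw [hv0.1, hv0.2]
    simpa using hX
  -- both points are away from the singularity
  have hcase : ¬ (|1 - u| ≤ om ∧ |1 - v| ≤ om) := by
    intro hh
    exact hv0 ⟨hF.cut v hh.2, hF.cut u hh.1⟩
  have h1u : om / 2 ≤ |1 - u| := by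
    by_contra hh
    push Not at hh
    exact hcase ⟨by linarith, by linarith [hnear.1]⟩
  have h1v : om / 2 ≤ |1 - v| := by
    by_contra hh
    push Not at hh
    exact hcase ⟨by linarith [hnear.2], by linarith⟩
  have hom2 : 0 < om / 2 := by positivity
  have hlog : |Real.log |n - t| / 2 - Real.log |ν - t| / 2| ≤ η + 4 * U * η / om := by
    have e1 : |n - t| = n * |1 - u| := by
      rw [hu, show n - t = n * (1 - t / n) by field_simp, abs_mul, abs_of_pos hn]
    have e2 : |ν - t| = ν * |1 - v| := by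
      rw [hv, show ν - t = ν * (1 - t / ν) by field_simp, abs_mul, abs_of_pos hν]
    rw [e1, e2, Real.log_mul hn.ne' (by linarith), Real.log_mul hν.ne' (by linarith)]
    have e3 := log_sub_le hom2 h1u h1v
    have e4 : |(|1 - u| - |1 - v|)| / (om / 2) ≤ 8 * U * η / om := by
      rw [div_le_div_iff₀ hom2 hom]
      have e6 : |(|1 - u| - |1 - v|)| ≤ 4 * U * η := hnear'.trans hs
      calc |(|1 - u| - |1 - v|)| * om ≤ 4 * U * η * om := mul_le_mul_of_nonneg_right e6 hom.le
        _ = 8 * U * η * (om / 2) := by ring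
    have e5 : 0 ≤ Real.log n - Real.log ν := by
      have := Real.log_le_log hν h1
      linarith
    have e7 : (Real.log n + Real.log |1 - u|) / 2 - (Real.log ν + Real.log |1 - v|) / 2 =
        (Real.log n - Real.log ν) / 2 + (Real.log |1 - u| - Real.log |1 - v|) / 2 := by ring
    rw [e7]
    refine (abs_add_le _ _).trans ?_
    rw [abs_of_nonneg (by linarith : 0 ≤ (Real.log n - Real.log ν) / 2), abs_div,
      abs_of_pos (by norm_num : (0 : ℝ) < 2)]
    have e8 : 4 * U * η / om = 8 * U * η / om / 2 := by ring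
    rw [e8]
    have e9 := e3.trans e4
    linarith
  have hva2 : a ≤ |v| := hu1.trans huv
  have f1 : F u * HH Dl R k (Real.log |n - t| / 2) - F v * HH Dl R k (Real.log |ν - t| / 2) =
      (F u - F v) * HH Dl R k (Real.log |n - t| / 2) +
      F v * (HH Dl R k (Real.log |n - t| / 2) - HH Dl R k (Real.log |ν - t| / 2)) := by ring
  rw [f1]
  refine (abs_add_le _ _).trans ?_
  rw [abs_mul, abs_mul]
  have g1 : |F u - F v| ≤ La * (4 * U * η) :=
    (hF.lip u v hu1 hva2 (by linarith)).trans (mul_le_mul_of_nonneg_left hs hL)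
  have g2 : |HH Dl R k (Real.log |n - t| / 2)| ≤ T := HH_abs Dl R hk _
  have g3 : |HH Dl R k (Real.log |n - t| / 2) - HH Dl R k (Real.log |ν - t| / 2)| ≤
      (η + 4 * U * η / om) * T :=
    (HH_lip Dl R hk _ _).trans (mul_le_mul_of_nonneg_right hlog hT0)
  have g4 : |F v| ≤ M := hF.bd v hva2
  have g5 := mul_le_mul g1 g2 (abs_nonneg _) (by positivity)
  have g6 := mul_le_mul g4 g3 (abs_nonneg _) hM0
  have g7 : η * (8 * U * La + M * (1 + 8 * U / om)) * T =
      (La * (4 * U * η) * T + M * ((η + 4 * U * η / om) * T)) +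
        (La * (4 * U * η) * T + M * (4 * U * η / om * T)) := by ring
  have g8 : 0 ≤ La * (4 * U * η) * T + M * (4 * U * η / om * T) := by positivity
  linarith

end Pool.Agent.LSPO2
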