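import Pool.Agent.Lib_helper31.LSP2.Lvl

/-! LSP2, part O2: one level, one `g`: the result. -/

set_option autoImplicit false

namespace Pool.Agent.LSPO2

open Pool.Agent.LSPO (GOK)
open Finset

section

variable {G : ℝ → ℝ} {U c Y x V : ℝ} {N Q Dl R : ℕ} {P : Finset ℕ} {θ a : ℕ → ℝ}

theorem O2P.xx (h : O2P G U c Y x V N Q Dl R P θ a) : 4 * (x * Y ^ 100) ≤ x ^ 2 / Y ^ 100 := by
  have hY := h.Y0
  have hY2 := h.Y2
  have hx0 := h.x0
  rw [le_div_iff₀ (by positivity)]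
  have e1 : 4 * Y ^ 200 ≤ x := by
    calc 4 * Y ^ 200 ≤ Y * Y ^ 200 := by
          refine mul_le_mul_of_nonneg_right ?_ (by positivity)
          linarith
      _ = Y ^ 201 := by ring
      _ ≤ x := h.pwx (by norm_num)
  have e2 : 4 * (x * Y ^ 100) * Y ^ 100 = x * (4 * Y ^ 200) := by ring
  rw [e2, sq]
  exact mul_le_mul_of_nonneg_left e1 hx0.le

/-- the divisor function at the arguments -/
theorem O2P.tauk (h : O2P G U c Y x V N Q Dl R P θ a) {n : ℕ} (hn : (n : ℝ) ≤ 4 * (x * Y ^ 100))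
    {g : ℤ} (hg : |(g : ℝ)| ≤ Y ^ 102) (hk : (n : ℤ) - g * N ≠ 0) :
    LSPO.tau ((n : ℤ) - g * N).natAbs ≤ Y := by
  have hY := h.Y0
  have hY2 := h.Y2
  have hx0 := h.x0
  have hN0 := h.N0
  refine h.ta _ (Nat.one_le_iff_ne_zero.2 (Int.natAbs_ne_zero.2 hk)) ?_
  have e1 : ((((n : ℤ) - g * N).natAbs : ℕ) : ℝ) = |(n : ℝ) - g * N| := by
    rw [Nat.cast_natAbs]
    push_cast
    rfl
  rw [e1]
  refine (abs_sub _ _).trans ?_
  rw [abs_mul, abs_of_pos hN0, abs_of_nonneg (Nat.cast_nonneg (α := ℝ) n)]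
  have e2 : |(g : ℝ)| * N ≤ Y ^ 102 * (8 * x) := mul_le_mul hg h.N2 hN0.le (by positivity)
  have e3 : 4 * (x * Y ^ 100) + Y ^ 102 * (8 * x) = x * (4 * Y ^ 100 + 8 * Y ^ 102) := by ring
  have e4 : 4 * Y ^ 100 + 8 * Y ^ 102 ≤ x := by
    have f1 : Y ^ 100 ≤ Y ^ 102 := h.pw (by norm_num)
    calc 4 * Y ^ 100 + 8 * Y ^ 102 ≤ 12 * Y ^ 102 := by linarith
      _ ≤ Y * Y ^ 102 := by
          refine mul_le_mul_of_nonneg_right ?_ (by positivity)
          linarith
      _ = Y ^ 103 := by ring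
      _ ≤ x := h.pwx (by norm_num)
  have e5 : x * (4 * Y ^ 100 + 8 * Y ^ 102) ≤ x * x := mul_le_mul_of_nonneg_left e4 hx0.le
  rw [sq]
  linarith

theorem O2P.taun (h : O2P G U c Y x V N Q Dl R P θ a) {n : ℕ} (hn1 : 1 ≤ n)
    (hn : (n : ℝ) ≤ 4 * (x * Y ^ 100)) : LSPO.tau n ≤ Y := by
  refine h.ta _ hn1 (hn.trans (h.xx.trans ?_))
  refine div_le_self (sq_nonneg _) (one_le_pow₀ h.Y1)

/-- the harmonic sum over the level -/
theorem O2P.near (h : O2P G U c Y x V N Q Dl R P θ a) {Dt : ℝ} (hD0 : (Y ^ 2000)⁻¹ ≤ Dt)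
    (hD1 : Dt < 1 → Dt ≤ 1 / 12) (hD2 : Dt ≤ 1) {t : ℝ} (ht : (N : ℝ) ≤ |t|) {Q' : ℕ}
    (hQ' : (Q' : ℝ) ≤ x ^ 2) :
    ∑ n ∈ Icc 1 Q', (1 / (n : ℝ)) * (if Dt < 1 ∧ 3 * Dt < |1 - t / n| then 0 else 1) ≤ Dt * Y := by
  have hY := h.Y0
  have hY2 := h.Y2
  have hDt0 : 0 < Dt := lt_of_lt_of_le (by positivity) hD0
  by_cases hlt : Dt < 1
  · have e1 : ∑ n ∈ Icc 1 Q', (1 / (n : ℝ)) * (if Dt < 1 ∧ 3 * Dt < |1 - t / n| then 0 else 1) =
        ∑ n ∈ (Icc 1 Q').filter (fun n : ℕ => |1 - t / n| ≤ 3 * Dt), 1 / (n : ℝ) := by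
      rw [sum_filter]
      refine sum_congr rfl fun n _ => ?_
      by_cases h1 : |1 - t / n| ≤ 3 * Dt
      · rw [if_pos h1, if_neg (fun h2 => absurd h2.2 (not_lt.2 h1)), mul_one]
      · rw [if_neg h1, if_pos ⟨hlt, not_le.1 h1⟩, mul_zero]
    rw [e1]
    refine (near_sum hDt0 (hD1 hlt) ?_ Q').trans ?_
    · have f1 : (Y ^ 2000)⁻¹ * (x / 4) ≤ Dt * |t| := by
        refine mul_le_mul hD0 ?_ (by linarith [h.x0]) hDt0.le
        linarith [h.N1]
      have f2 : 1 ≤ (Y ^ 2000)⁻¹ * (x / 4) := by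
        rw [inv_mul_eq_div, le_div_iff₀ (by positivity)]
        have f3 : Y * Y ^ 2000 ≤ x := by
          calc Y * Y ^ 2000 = Y ^ 2001 := by ring
            _ ≤ x := h.pwx (by norm_num)
        have f4 : 0 < Y ^ 2000 := by positivity
        nlinarith
      linarith
    · rw [mul_comm]
      refine mul_le_mul_of_nonneg_left ?_ hDt0.le
      linarith
  · have hDt : Dt = 1 := le_antisymm hD2 (not_lt.1 hlt)
    have e1 : ∑ n ∈ Icc 1 Q', (1 / (n : ℝ)) * (if Dt < 1 ∧ 3 * Dt < |1 - t / n| then 0 else 1) =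
        ∑ n ∈ Icc 1 Q', 1 / (n : ℝ) := by
      refine sum_congr rfl fun n _ => ?_
      rw [if_neg (fun h2 => hlt h2.1), mul_one]
    rw [e1, hDt, one_mul]
    refine (harm_le _).trans ?_
    have hlx := h.lx
    have f1 : Real.log Q' ≤ 2 * Real.log x := by
      rcases Nat.eq_zero_or_pos Q' with h0 | h0
      · subst h0; simpa using h.logx
      · have := Real.log_le_log (show (0 : ℝ) < Q' by exact_mod_cast h0) hQ'
        rw [Real.log_pow] at this
        exact_mod_cast this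
    linarith

/-- one level, one `g` -/
theorem O2P.lvl (h : O2P G U c Y x V N Q Dl R P θ a) {η : ℝ} (hη : (Y ^ 2000)⁻¹ ≤ η)
    (hη1 : η ≤ 1 / 10) {om Dt La : ℝ} (hom0 : 0 < om) (hom : om ≤ Dt) (hηo : Y * η ≤ om)
    (hD1 : Dt < 1 → Dt ≤ 1 / 12) (hD2 : Dt ≤ 1) (hLa : 1 / om ≤ La)
    {F : ℝ → ℝ} (hF : Lev U (16 * Y ^ 100)⁻¹ om Dt Y La F) {g : ℤ} (hg : g ≠ 0)
    (hg2 : |(g : ℝ)| ≤ Y ^ 102) {Q' : ℕ} (hQ' : 4 * (x * Y ^ 100) ≤ Q') :
    |∑ n ∈ Icc 1 Q', LSP.CY P θ a n * (F ((g : ℝ) * N / n) *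
      HH Dl R ((n : ℤ) - g * N) (Real.log |(n : ℝ) - g * N| / 2))| ≤
      Dt * (η * La * Y ^ 8 + 1 / η * (Y ^ 5 / Y ^ 1999)) := by
  have hY := h.Y0
  have hY1 := h.Y1
  have hY2 := h.Y2
  have hx0 := h.x0
  have hU := h.ok.one_le
  have hU1 := h.U1
  have hη0 : 0 < η := lt_of_lt_of_le (by positivity) hη
  have hN0 := h.N0
  have hηom : η ≤ om := by
    refine le_trans ?_ hηo
    exact le_mul_of_one_le_left hη0.le hY1
  have hDt0 : 0 < Dt := hom0.trans_le hom
  have hLa0 : 0 ≤ La := le_trans (by positivity) hLa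
  have hgR : (1 : ℝ) ≤ |(g : ℝ)| := by
    have : 1 ≤ |g| := Int.one_le_abs hg
    exact_mod_cast this
  have hVQ : ∀ p ∈ P, p * Q ≤ ⌊4 * (x * Y ^ 100)⌋₊ := by
    intro p hp
    refine Nat.le_floor ?_
    push_cast
    exact h.pm hp le_rfl
  have hVQ' : ∀ p ∈ P, p * Q ≤ Q' := by
    intro p hp
    have e1 := h.pm (m := Q) hp le_rfl
    have e2 : ((p * Q : ℕ) : ℝ) ≤ Q' := by
      push_cast
      linarith
    exact_mod_cast e2
  have hP1 : ∀ p ∈ P, 1 ≤ p := fun p hp => (h.pr p hp).1.one_lt.le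
  set Ψ : ℕ → ℝ := fun n => F ((g : ℝ) * N / n) *
      HH Dl R ((n : ℤ) - g * N) (Real.log |(n : ℝ) - g * N| / 2) with hΨ
  rw [cy_sum hP1 θ a h.sp hVQ' Ψ]
  set Φ : ℕ → ℕ → ℝ := fun p m => F ((g : ℝ) * N / Real.exp (η * (ix η p + ix η m))) *
        HH Dl R ((p : ℤ) * m - g * N)
          (Real.log |Real.exp (η * (ix η p + ix η m)) - g * N| / 2) with hΦ
  have hsplit : ∑ p ∈ P, ∑ m ∈ Icc 1 Q, θ p / p * a m * Ψ (p * m) =
      ∑ p ∈ P, ∑ m ∈ Icc 1 Q, θ p / p * a m * (Ψ (p * m) - Φ p m) +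
      ∑ p ∈ P, ∑ m ∈ Icc 1 Q, θ p / p * a m * Φ p m := by
    rw [← sum_add_distrib]
    refine sum_congr rfl fun p _ => ?_
    rw [← sum_add_distrib]
    exact sum_congr rfl fun m _ => by ring
  rw [hsplit]
  refine (abs_add_le _ _).trans ?_
  have hfz := h.frozen hη hη1 (hηom.trans hom) hD1 hD2 hF hg
  set C₂ := η * (8 * U * La + Y * (1 + 8 * U / om)) * (Y * Y) with hC₂
  set In : ℕ → ℝ := fun n => if Dt < 1 ∧ 3 * Dt < |1 - (g : ℝ) * N / n| then 0 else 1 with hIn
  have hIn0 : ∀ n, 0 ≤ In n := by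
    intro n
    rw [hIn]
    simp only
    split_ifs <;> norm_num
  have hC₂0 : 0 ≤ C₂ := by positivity
  -- the error of freezing
  have hfr : ∀ p ∈ P, ∀ m ∈ Icc 1 Q, |Ψ (p * m) - Φ p m| ≤ In (p * m) * C₂ := by
    intro p hp m hm
    rw [mem_Icc] at hm
    have hp1 := hP1 p hp
    have hp0 : (0 : ℝ) < p := by exact_mod_cast hp1
    have hm0 : (0 : ℝ) < m := by exact_mod_cast hm.1
    have hpm := h.pm hp hm.2
    set ν := Real.exp (η * (ix η p + ix η m)) with hν
    have hν0 : 0 < ν := Real.exp_pos _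
    have hν1 : ν ≤ (p : ℝ) * m := by
      rw [hν, mul_add, Real.exp_add]
      exact mul_le_mul (ix_le hη0 hp1) (ix_le hη0 hm.1) (Real.exp_pos _).le hp0.le
    have hν2 : Real.log ((p : ℝ) * m) - Real.log ν ≤ 2 * η := by
      have e1 : (p : ℝ) * m ≤ ν * (Real.exp η * Real.exp η) := by
        rw [hν, mul_add, Real.exp_add]
        calc (p : ℝ) * m ≤ (Real.exp (η * ix η p) * Real.exp η) *
              (Real.exp (η * ix η m) * Real.exp η) :=
              mul_le_mul (lt_ix hη0 hp1).le (lt_ix hη0 hm.1).le hm0.le (by positivity)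
          _ = _ := by ring
      have e2 := Real.log_le_log (by positivity) e1
      have e3 : Real.log (Real.exp η * Real.exp η) = 2 * η := by
        rw [← Real.exp_add, Real.log_exp]; ring
      rw [Real.log_mul hν0.ne' (by positivity), e3] at e2
      linarith
    have hcast : (((p : ℤ) * m - g * N : ℤ) : ℝ) = (p : ℝ) * m - g * N := by push_cast; ring
    have hΨe : Ψ (p * m) = F ((g : ℝ) * N / ((p : ℝ) * m)) *
        HH Dl R ((p : ℤ) * m - g * N) (Real.log |(p : ℝ) * m - g * N| / 2) := by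
      rw [hΨ]
      simp only
      push_cast
      rfl
    have hΦe : Φ p m = F ((g : ℝ) * N / ν) *
        HH Dl R ((p : ℤ) * m - g * N) (Real.log |ν - g * N| / 2) := rfl
    rw [hΨe, hΦe]
    by_cases hk : (p : ℤ) * m - g * N = 0
    · -- both terms vanish
      have e1 : (g : ℝ) * N = (p : ℝ) * m := by
        have := hcast
        rw [hk] at this
        push_cast at this
        linarith
      have e2 : F ((g : ℝ) * N / ((p : ℝ) * m)) = 0 := by
        rw [e1, div_self (by positivity)]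
        exact hF.cut 1 (by simpa using hom0.le)
      have e3 : F ((g : ℝ) * N / ν) = 0 := by
        refine hF.cut _ ?_
        rw [e1]
        have e4 : 1 ≤ (p : ℝ) * m / ν := by rw [le_div_iff₀ hν0]; linarith
        have e5 : (p : ℝ) * m / ν ≤ 1 + 4 * η := by
          have f1 : Real.log ((p : ℝ) * m / ν) ≤ 2 * η := by
            rw [Real.log_div (by positivity) hν0.ne']; exact hν2
          have f2 : (p : ℝ) * m / ν ≤ Real.exp (2 * η) := by
            rw [← Real.log_le_iff_le_exp (by positivity)]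
            exact f1
          refine f2.trans ?_
          have f3 := Real.abs_exp_sub_one_le (show |2 * η| ≤ 1 by
            rw [abs_of_pos (by positivity)]; linarith)
          rw [abs_of_pos (show (0 : ℝ) < 2 * η by positivity)] at f3
          have := le_abs_self (Real.exp (2 * η) - 1)
          linarith
        rw [abs_le]
        constructor
        · nlinarith
        · linarith
      rw [e2, e3, zero_mul, zero_mul, sub_zero, abs_zero]
      exact mul_nonneg (hIn0 _) hC₂0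
    have ht : (16 * Y ^ 100)⁻¹ * ((p : ℝ) * m) ≤ |(g : ℝ) * N| := by
      rw [abs_mul, abs_of_pos hN0]
      have e1 : (N : ℝ) ≤ |(g : ℝ)| * N := le_mul_of_one_le_left hN0.le hgR
      have e2 : (16 * Y ^ 100)⁻¹ * ((p : ℝ) * m) ≤ (16 * Y ^ 100)⁻¹ * (4 * (x * Y ^ 100)) :=
        mul_le_mul_of_nonneg_left hpm (by positivity)
      have e3 : (16 * Y ^ 100)⁻¹ * (4 * (x * Y ^ 100)) = x / 4 := by field_simp; ring
      linarith [h.N1]
    have hkey := freeze hF hU (by positivity) hom0 hom hY.le hLa0 hη0 (by linarith)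
      (by nlinarith) Dl R hk hν0 hν1 hν2 (t := (g : ℝ) * N) ht
    refine hkey.trans ?_
    have hInE : In (p * m) =
        if Dt < 1 ∧ 3 * Dt < |1 - (g : ℝ) * N / ((p : ℝ) * m)| then 0 else 1 := by
      rw [hIn]
      simp only
      push_cast
      rfl
    rw [hInE, hC₂]
    refine mul_le_mul_of_nonneg_left ?_ (by split_ifs <;> norm_num)
    refine mul_le_mul_of_nonneg_left ?_ (by positivity)
    have e1 := h.tauk (n := p * m) (by push_cast; exact hpm) hg2 (by push_cast; exact hk)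
    push_cast at e1
    have e2 := h.H0
    have e3 : 0 ≤ LSPO.tau ((p : ℤ) * m - g * N).natAbs := by unfold LSPO.tau; positivity
    exact mul_le_mul e1 e2 (by
      have f1 : 0 ≤ Real.log Dl := Real.log_natCast_nonneg Dl
      have f2 : 0 ≤ Real.log R := Real.log_natCast_nonneg R
      positivity) hY.le
  have hpart1 : |∑ p ∈ P, ∑ m ∈ Icc 1 Q, θ p / p * a m * (Ψ (p * m) - Φ p m)| ≤
      C₂ * (Y ^ 2 * (Dt * Y)) := by
    calc |∑ p ∈ P, ∑ m ∈ Icc 1 Q, θ p / p * a m * (Ψ (p * m) - Φ p m)|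
        ≤ ∑ p ∈ P, ∑ m ∈ Icc 1 Q, C₂ * (|θ p / p * a m| * In (p * m)) := by
          refine (abs_sum_le_sum_abs _ _).trans (sum_le_sum fun p hp => ?_)
          refine (abs_sum_le_sum_abs _ _).trans (sum_le_sum fun m hm => ?_)
          rw [abs_mul]
          calc |θ p / p * a m| * |Ψ (p * m) - Φ p m| ≤ |θ p / p * a m| * (In (p * m) * C₂) :=
                mul_le_mul_of_nonneg_left (hfr p hp m hm) (abs_nonneg _)
            _ = _ := by ring
      _ = C₂ * ∑ p ∈ P, ∑ m ∈ Icc 1 Q, |θ p / p * a m| * In (p * m) := by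
          rw [mul_sum]
          exact sum_congr rfl fun p _ => by rw [mul_sum]
      _ ≤ C₂ * ∑ n ∈ Icc 1 ⌊4 * (x * Y ^ 100)⌋₊, Y * LSPO.tau n / n * In n :=
          mul_le_mul_of_nonneg_left (cy_abs hP1 hY.le h.th h.bd h.sp hVQ hIn0) hC₂0
      _ ≤ C₂ * (Y ^ 2 * (Dt * Y)) := by
          refine mul_le_mul_of_nonneg_left ?_ hC₂0
          have e0 : ((⌊4 * (x * Y ^ 100)⌋₊ : ℕ) : ℝ) ≤ 4 * (x * Y ^ 100) :=
            Nat.floor_le (by positivity)
          have e1 : ∀ n ∈ Icc 1 ⌊4 * (x * Y ^ 100)⌋₊, Y * LSPO.tau n / n * In n ≤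
              Y ^ 2 * (1 / (n : ℝ) * In n) := by
            intro n hn
            rw [mem_Icc] at hn
            have hn0 : (0 : ℝ) < n := by exact_mod_cast hn.1
            have f1 : (n : ℝ) ≤ 4 * (x * Y ^ 100) := by
              refine le_trans ?_ e0
              exact_mod_cast hn.2
            have f2 := h.taun hn.1 f1
            calc Y * LSPO.tau n / n * In n ≤ Y * Y / n * In n := by
                  refine mul_le_mul_of_nonneg_right ?_ (hIn0 n)
                  gcongr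
              _ = _ := by ring
          refine (sum_le_sum e1).trans ?_
          rw [← mul_sum]
          refine mul_le_mul_of_nonneg_left ?_ (by positivity)
          refine h.near ?_ hD1 hD2 ?_ ?_
          · exact hη.trans (hηom.trans hom)
          · rw [abs_mul, abs_of_pos hN0]
            exact le_mul_of_one_le_left hN0.le hgR
          · refine e0.trans (h.xx.trans ?_)
            exact div_le_self (sq_nonneg _) (one_le_pow₀ hY1)
  have hC₂le : C₂ * (Y ^ 2 * (Dt * Y)) ≤ Dt * (η * La * Y ^ 8) := by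
    have e1 : 8 * U * La + Y * (1 + 8 * U / om) ≤ Y ^ 3 * La := by
      have f1 : 8 * U * La ≤ Y * La := mul_le_mul_of_nonneg_right (by linarith) hLa0
      have f2 : 8 * U / om ≤ Y * La := by
        calc 8 * U / om = 8 * U * (1 / om) := by ring
          _ ≤ Y * La := mul_le_mul (by linarith) hLa (by positivity) hY.le
      have f3 : 1 ≤ Y * La := by
        have g1 : 1 ≤ 1 / om := by
          rw [le_div_iff₀ hom0]
          linarith
        calc (1 : ℝ) ≤ 1 * La := by linarith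
          _ ≤ Y * La := mul_le_mul_of_nonneg_right hY1 hLa0
      have f4 : Y * (1 + 8 * U / om) ≤ Y * (2 * (Y * La)) :=
        mul_le_mul_of_nonneg_left (by linarith) hY.le
      have f5 : Y * La ≤ Y ^ 2 * La := by
        refine mul_le_mul_of_nonneg_right ?_ hLa0
        calc Y = Y ^ 1 := (pow_one Y).symm
          _ ≤ Y ^ 2 := h.pw (by norm_num)
      calc 8 * U * La + Y * (1 + 8 * U / om) ≤ 3 * (Y ^ 2 * La) := by nlinarith
        _ ≤ Y * (Y ^ 2 * La) := mul_le_mul_of_nonneg_right (by linarith) (by positivity)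
        _ = Y ^ 3 * La := by ring
    calc C₂ * (Y ^ 2 * (Dt * Y)) =
        η * (8 * U * La + Y * (1 + 8 * U / om)) * (Y ^ 5 * Dt) := by rw [hC₂]; ring
      _ ≤ η * (Y ^ 3 * La) * (Y ^ 5 * Dt) := by gcongr
      _ = Dt * (η * La * Y ^ 8) := by ring
  have hfin : Dt / η * (Y ^ 5 / Y ^ 1999) = Dt * (1 / η * (Y ^ 5 / Y ^ 1999)) := by ring
  rw [mul_add, ← hfin]
  exact add_le_add (hpart1.trans hC₂le) hfz

end

end Pool.Agent.LSPO2
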