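import Pool.Agent.Lib_helper31.LSP2.Bx

/-! LSP2, part O2: one level, one `g`. -/

set_option autoImplicit false

namespace Pool.Agent.LSPO2

open Pool.Agent.LSPO (GOK)
open Finset

/-- grouping into boxes -/
theorem group (P M : Finset ℕ) (i : ℕ → ℕ) (I : ℕ) (hP : ∀ p ∈ P, i p < I)
    (hM : ∀ m ∈ M, i m < I) (f : ℕ → ℕ → ℝ) :
    ∑ p ∈ P, ∑ m ∈ M, f p m = ∑ s ∈ range I, ∑ s' ∈ range I,
      ∑ p ∈ P.filter (fun p => i p = s), ∑ m ∈ M.filter (fun m => i m = s'), f p m := by
  rw [← sum_fiberwise_of_maps_to (s := P) (t := range I) (g := i)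
    (fun p hp => mem_range.2 (hP p hp))]
  refine sum_congr rfl fun s _ => ?_
  symm
  rw [sum_comm]
  refine sum_congr rfl fun p _ => ?_
  exact sum_fiberwise_of_maps_to (s := M) (t := range I) (g := i)
    (fun m hm => mem_range.2 (hM m hm)) (fun m => f p m)

section

variable {G : ℝ → ℝ} {U c Y x V : ℝ} {N Q Dl R : ℕ} {P : Finset ℕ} {θ a : ℕ → ℝ}

theorem O2P.N0 (h : O2P G U c Y x V N Q Dl R P θ a) : (0 : ℝ) < N := by
  have := h.N1
  linarith [h.x0]

/-- logarithms -/
theorem O2P.H0 (h : O2P G U c Y x V N Q Dl R P θ a) :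
    1 + (1 + Real.log Dl) * (1 + Real.log R) ≤ Y := by
  have hlx := h.logx
  have hU := h.ok.one_le
  have hc := h.ok.one_le'
  have e : ∀ n : ℕ, (n : ℝ) ≤ x → Real.log n ≤ Real.log x := by
    intro n hn
    rcases Nat.eq_zero_or_pos n with h0 | h0
    · subst h0; simpa using hlx
    · exact Real.log_le_log (by exact_mod_cast h0) hn
  have e1 := e Dl h.D2
  have e2 := e R h.R2
  have e3 : 0 ≤ Real.log Dl := Real.log_natCast_nonneg Dl
  have e4 : 0 ≤ Real.log R := Real.log_natCast_nonneg R
  have e5 : (1 + Real.log Dl) * (1 + Real.log R) ≤ (1 + Real.log x) * (1 + Real.log x) := by gcongr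
  have e6 : 1 + (1 + Real.log x) * (1 + Real.log x) ≤ (Real.log x + U + 2) ^ 2 := by nlinarith
  have e7 : (Real.log x + U + 2) ^ 2 ≤ 1000 * c * (Real.log x + U + 2) ^ 2 :=
    le_mul_of_one_le_left (by positivity) (by linarith)
  linarith [h.hY]

/-- the frozen sum -/
theorem O2P.frozen (h : O2P G U c Y x V N Q Dl R P θ a) {η : ℝ} (hη : (Y ^ 2000)⁻¹ ≤ η)
    (hη1 : η ≤ 1 / 10) {om Dt La : ℝ} (hD0 : η ≤ Dt) (hD1 : Dt < 1 → Dt ≤ 1 / 12) (hD2 : Dt ≤ 1)
    {F : ℝ → ℝ} (hF : Lev U (16 * Y ^ 100)⁻¹ om Dt Y La F) {g : ℤ} (hg : g ≠ 0) :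
    |∑ p ∈ P, ∑ m ∈ Icc 1 Q, θ p / p * a m *
      (F ((g : ℝ) * N / Real.exp (η * (ix η p + ix η m))) *
        HH Dl R ((p : ℤ) * m - g * N)
          (Real.log |Real.exp (η * (ix η p + ix η m)) - g * N| / 2))| ≤
      Dt / η * (Y ^ 5 / Y ^ 1999) := by
  have hY := h.Y0
  have hY1 := h.Y1
  have hY2 := h.Y2
  have hx0 := h.x0
  have hU := h.ok.one_le
  have hU1 := h.U1
  have hlx := h.logx
  have hlx2 := h.lx
  have hη0 : 0 < η := lt_of_lt_of_le (by positivity) hη
  have hN0 := h.N0
  have hgR : (1 : ℝ) ≤ |(g : ℝ)| := by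
    have : 1 ≤ |g| := Int.one_le_abs hg
    exact_mod_cast this
  set I : ℕ := ⌊2 * Real.log x / η⌋₊ + 1 with hI
  have hIR : (I : ℝ) ≤ Y / η := by
    rw [hI]
    push_cast
    have e1 := Nat.floor_le (show 0 ≤ 2 * Real.log x / η by positivity)
    have e2 : 1 ≤ (Y / 2) / η := by
      rw [le_div_iff₀ hη0]
      linarith
    have e3 : 2 * Real.log x / η ≤ (Y / 2) / η := by
      refine div_le_div_of_nonneg_right ?_ hη0.le
      linarith
    have e4 : Y / η = (Y / 2) / η + (Y / 2) / η := by ring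
    linarith
  have hidx : ∀ n : ℕ, 1 ≤ n → (n : ℝ) ≤ x ^ 2 → ix η n < I := by
    intro n hn hn2
    rw [hI]
    have hn0 : (0 : ℝ) < n := by exact_mod_cast hn
    have e1 : Real.log n ≤ 2 * Real.log x := by
      have := Real.log_le_log hn0 hn2
      rw [Real.log_pow] at this
      exact_mod_cast this
    unfold ix
    refine Nat.lt_succ_of_le (Nat.floor_le_floor ?_)
    exact div_le_div_of_nonneg_right e1 hη0.le
  have hVx : V ≤ x := by
    have e1 : V * 1 ≤ V * Y ^ 4000 := by
      refine mul_le_mul_of_nonneg_left (one_le_pow₀ hY1) (by linarith [h.V1])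
    linarith [h.hV1]
  have hxx : 4 * (x * Y ^ 100) ≤ x ^ 2 := by
    have e1 : 4 * Y ^ 100 ≤ x := by
      calc 4 * Y ^ 100 ≤ Y * Y ^ 100 := by
            refine mul_le_mul_of_nonneg_right ?_ (by positivity)
            linarith
        _ = Y ^ 101 := by ring
        _ ≤ x := h.pwx (by norm_num)
    nlinarith
  have hQx : (Q : ℝ) ≤ x ^ 2 := by
    refine le_trans ?_ (h.hV.trans hxx)
    exact le_mul_of_one_le_left (Nat.cast_nonneg _) h.V1
  have hiP : ∀ p ∈ P, ix η p < I := by
    intro p hp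
    have hp1 := h.pr p hp
    refine hidx p hp1.1.one_lt.le ?_
    have : x ≤ x ^ 2 := by nlinarith [h.x1]
    linarith [hp1.2.2]
  have hiM : ∀ m ∈ Icc 1 Q, ix η m < I := by
    intro m hm
    rw [mem_Icc] at hm
    refine hidx m hm.1 (le_trans ?_ hQx)
    exact_mod_cast hm.2
  rw [group P (Icc 1 Q) (ix η) I hiP hiM]
  set Bx : ℝ := 6 * η * Y / Y ^ 1999 with hBx
  have hBx0 : 0 ≤ Bx := by positivity
  -- one box
  have hbox : ∀ s ∈ range I, ∀ s' ∈ range I,
      |∑ p ∈ P.filter (fun p => ix η p = s), ∑ m ∈ (Icc 1 Q).filter (fun m => ix η m = s'),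
        θ p / p * a m *
      (F ((g : ℝ) * N / Real.exp (η * (ix η p + ix η m))) *
        HH Dl R ((p : ℤ) * m - g * N)
          (Real.log |Real.exp (η * (ix η p + ix η m)) - g * N| / 2))| ≤
      if F ((g : ℝ) * N / Real.exp (η * (s + s'))) ≠ 0 then Y * Bx else 0 := by
    intro s _ s' _
    set ν := Real.exp (η * ((s : ℝ) + s')) with hν
    have hν0 : 0 < ν := Real.exp_pos _
    set y := Real.log |ν - g * N| / 2 with hy
    have e1 : ∑ p ∈ P.filter (fun p => ix η p = s), ∑ m ∈ (Icc 1 Q).filter (fun m => ix η m = s'),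
        θ p / p * a m *
      (F ((g : ℝ) * N / Real.exp (η * (ix η p + ix η m))) *
        HH Dl R ((p : ℤ) * m - g * N)
          (Real.log |Real.exp (η * (ix η p + ix η m)) - g * N| / 2)) =
        F ((g : ℝ) * N / ν) * ∑ D ∈ Icc 1 Dl, lam Dl y D *
          ∑ p ∈ P.filter (fun p => ix η p = s), ∑ m ∈ (Icc 1 Q).filter (fun m => ix η m = s'),
            θ p / p * a m * LSPD.UU D R ((p : ℤ) * m - g * N) := by
      have f1 : ∀ p ∈ P.filter (fun p => ix η p = s),
          ∀ m ∈ (Icc 1 Q).filter (fun m => ix η m = s'), θ p / p * a m *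
      (F ((g : ℝ) * N / Real.exp (η * (ix η p + ix η m))) *
        HH Dl R ((p : ℤ) * m - g * N)
          (Real.log |Real.exp (η * (ix η p + ix η m)) - g * N| / 2)) =
          ∑ D ∈ Icc 1 Dl, F ((g : ℝ) * N / ν) * (lam Dl y D *
            (θ p / p * a m * LSPD.UU D R ((p : ℤ) * m - g * N))) := by
        intro p hp m hm
        rw [mem_filter] at hp hm
        rw [hp.2, hm.2, ← hν, ← hy, HH_eq, mul_sum, mul_sum]
        exact sum_congr rfl fun D _ => by ring
      rw [sum_congr rfl (fun p hp => sum_congr rfl (f1 p hp))]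
      rw [mul_sum]
      rw [sum_congr rfl (fun p _ => sum_comm)]
      rw [sum_comm]
      refine sum_congr rfl fun D _ => ?_
      rw [mul_sum, mul_sum]
      refine sum_congr rfl fun p _ => ?_
      rw [mul_sum, mul_sum]
    rw [e1]
    by_cases hF0 : F ((g : ℝ) * N / ν) ≠ 0
    · rw [if_pos hF0]
      -- the support gives the size of the box
      have hsup : |(g : ℝ)| * N ≤ U * ν := by
        by_contra hh
        push Not at hh
        apply hF0
        apply hF.supp
        rw [abs_div, abs_mul, abs_of_pos hN0, abs_of_pos hν0, lt_div_iff₀ hν0]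
        exact hh
      have e2 : ∀ D ∈ Icc 1 Dl, |∑ p ∈ P.filter (fun p => ix η p = s),
          ∑ m ∈ (Icc 1 Q).filter (fun m => ix η m = s'),
            θ p / p * a m * LSPD.UU D R ((p : ℤ) * m - g * N)| ≤ Bx := by
        intro D hD
        rw [mem_Icc] at hD
        exact h.box hη hη1 hg hsup hD.1 hD.2
      have e3 : |∑ D ∈ Icc 1 Dl, lam Dl y D *
          ∑ p ∈ P.filter (fun p => ix η p = s), ∑ m ∈ (Icc 1 Q).filter (fun m => ix η m = s'),
            θ p / p * a m * LSPD.UU D R ((p : ℤ) * m - g * N)| ≤ Bx := by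
        refine (abs_sum_le_sum_abs _ _).trans ?_
        have f1 : ∀ D ∈ Icc 1 Dl, |lam Dl y D *
          ∑ p ∈ P.filter (fun p => ix η p = s), ∑ m ∈ (Icc 1 Q).filter (fun m => ix η m = s'),
            θ p / p * a m * LSPD.UU D R ((p : ℤ) * m - g * N)| ≤ lam Dl y D * Bx := by
          intro D hD
          rw [abs_mul, abs_of_nonneg (lam_nonneg Dl y (mem_Icc.1 hD).1)]
          exact mul_le_mul_of_nonneg_left (e2 D hD) (lam_nonneg Dl y (mem_Icc.1 hD).1)
        refine (sum_le_sum f1).trans ?_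
        rw [← sum_mul]
        exact mul_le_of_le_one_left hBx0 (lam_sum Dl y)
      by_cases hne : (P.filter (fun p => ix η p = s)).Nonempty ∧
          ((Icc 1 Q).filter (fun m => ix η m = s')).Nonempty
      · obtain ⟨⟨p, hp⟩, ⟨m, hm⟩⟩ := hne
        rw [mem_filter] at hp hm
        rw [mem_Icc] at hm
        have g1 := ix_le hη0 (h.pr p hp.1).1.one_lt.le
        have g2 := ix_le hη0 hm.1.1
        rw [hp.2] at g1
        rw [hm.2] at g2
        have g3 : ν ≤ 4 * (x * Y ^ 100) := by
          refine le_trans ?_ (h.pm hp.1 hm.1.2)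
          rw [hν, mul_add, Real.exp_add]
          exact mul_le_mul g1 g2 (Real.exp_pos _).le (Nat.cast_nonneg _)
        have g4 : (16 * Y ^ 100)⁻¹ ≤ |(g : ℝ) * N / ν| := by
          rw [abs_div, abs_mul, abs_of_pos hN0, abs_of_pos hν0, inv_eq_one_div,
            div_le_div_iff₀ (by positivity) hν0]
          have g5 : (N : ℝ) ≤ |(g : ℝ)| * N := le_mul_of_one_le_left hN0.le hgR
          have g6 : x * (4 * Y ^ 100) ≤ 4 * N * (4 * Y ^ 100) :=
            mul_le_mul_of_nonneg_right h.N1 (by positivity)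
          have g7 : N * (16 * Y ^ 100) ≤ |(g : ℝ)| * N * (16 * Y ^ 100) :=
            mul_le_mul_of_nonneg_right g5 (by positivity)
          linarith
        rw [abs_mul]
        exact mul_le_mul (hF.bd _ g4) e3 (abs_nonneg _) hY.le
      · have g1 : ∑ D ∈ Icc 1 Dl, lam Dl y D *
          ∑ p ∈ P.filter (fun p => ix η p = s), ∑ m ∈ (Icc 1 Q).filter (fun m => ix η m = s'),
            θ p / p * a m * LSPD.UU D R ((p : ℤ) * m - g * N) = 0 := by
          refine sum_eq_zero fun D _ => ?_
          rcases (P.filter (fun p => ix η p = s)).eq_empty_or_nonempty with h0 | h0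
          · rw [h0, sum_empty, mul_zero]
          rcases ((Icc 1 Q).filter (fun m => ix η m = s')).eq_empty_or_nonempty with h1 | h1
          · rw [h1]
            simp only [sum_empty, sum_const_zero, mul_zero]
          exact absurd ⟨h0, h1⟩ hne
        rw [g1, mul_zero, abs_zero]
        positivity
    · rw [if_neg hF0]
      push Not at hF0
      rw [hF0, zero_mul, abs_zero]
  -- the number of boxes
  have hcnt : ∀ s ∈ range I, ((((range I).filter
      (fun s' : ℕ => F ((g : ℝ) * N / Real.exp (η * ((s : ℝ) + s'))) ≠ 0)).card : ℕ) : ℝ) ≤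
      Dt * Y / η := by
    intro s _
    by_cases hlt : Dt < 1
    · have hDt := hD1 hlt
      have hDt0 : 0 < Dt := hη0.trans_le hD0
      have e1 := card_win ((range I).filter
        (fun s' : ℕ => F ((g : ℝ) * N / Real.exp (η * ((s : ℝ) + s'))) ≠ 0)) (η := η)
        (s := Real.log ((g : ℝ) * N) - η * s) (B := 4 * Dt) hη0 (by positivity) (fun s' hs' => by
          rw [mem_filter] at hs'
          set ν := Real.exp (η * ((s : ℝ) + s')) with hν
          have hν0 : 0 < ν := Real.exp_pos _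
          have f1 : |1 - (g : ℝ) * N / ν| < 2 * Dt := by
            by_contra hh
            push Not at hh
            exact hs'.2 (hF.cut' hlt _ hh)
          rw [abs_lt] at f1
          have f2 : 0 < (g : ℝ) * N / ν := by linarith
          have f3 : 0 < (g : ℝ) * N := by
            have := mul_pos f2 hν0
            rwa [div_mul_cancel₀ _ hν0.ne'] at this
          have f4 : Real.log ((g : ℝ) * N / ν) ≤ 2 * Dt := by
            have := Real.log_le_sub_one_of_pos f2
            linarith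
          have f5 : -(4 * Dt) ≤ Real.log ((g : ℝ) * N / ν) := by
            have f6 := Real.log_le_sub_one_of_pos (inv_pos.2 f2)
            rw [Real.log_inv] at f6
            have f7 : ((g : ℝ) * N / ν)⁻¹ ≤ 1 + 4 * Dt := by
              rw [inv_eq_one_div, div_le_iff₀ f2]
              have f8 : 1 - 2 * Dt ≤ (g : ℝ) * N / ν := by linarith
              have f9 : (1 + 4 * Dt) * (1 - 2 * Dt) ≤ (1 + 4 * Dt) * ((g : ℝ) * N / ν) :=
                mul_le_mul_of_nonneg_left f8 (by positivity)
              nlinarith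
            linarith
          rw [Real.log_div f3.ne' hν0.ne', hν, Real.log_exp] at f4 f5
          rw [abs_le]
          constructor <;> linarith)
      refine e1.trans ?_
      have e2 : 1 ≤ Dt / η := by rw [le_div_iff₀ hη0]; linarith
      have e3 : 2 * (4 * Dt) / η + 1 ≤ 9 * (Dt / η) := by
        have : 2 * (4 * Dt) / η = 8 * (Dt / η) := by ring
        linarith
      refine e3.trans ?_
      calc 9 * (Dt / η) ≤ Y * (Dt / η) := by
            refine mul_le_mul_of_nonneg_right ?_ (by positivity)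
            linarith
        _ = Dt * Y / η := by ring
    · have hDt : Dt = 1 := le_antisymm hD2 (not_lt.1 hlt)
      rw [hDt, one_mul]
      refine le_trans ?_ hIR
      have := card_filter_le (range I)
        (fun s' : ℕ => F ((g : ℝ) * N / Real.exp (η * ((s : ℝ) + s'))) ≠ 0)
      rw [card_range] at this
      exact_mod_cast this
  have hDt0 : 0 ≤ Dt := hη0.le.trans hD0
  calc |∑ s ∈ range I, ∑ s' ∈ range I, ∑ p ∈ P.filter (fun p => ix η p = s),
        ∑ m ∈ (Icc 1 Q).filter (fun m => ix η m = s'), θ p / p * a m *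
      (F ((g : ℝ) * N / Real.exp (η * (ix η p + ix η m))) *
        HH Dl R ((p : ℤ) * m - g * N)
          (Real.log |Real.exp (η * (ix η p + ix η m)) - g * N| / 2))|
      ≤ ∑ s ∈ range I, ∑ s' ∈ range I,
        if F ((g : ℝ) * N / Real.exp (η * (s + s'))) ≠ 0 then Y * Bx else 0 := by
        refine (abs_sum_le_sum_abs _ _).trans (sum_le_sum fun s hs => ?_)
        exact (abs_sum_le_sum_abs _ _).trans (sum_le_sum fun s' hs' => hbox s hs s' hs')
    _ ≤ ∑ s ∈ range I, Dt * Y / η * (Y * Bx) := by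
        refine sum_le_sum fun s hs => ?_
        rw [← sum_filter, sum_const, nsmul_eq_mul]
        exact mul_le_mul_of_nonneg_right (hcnt s hs) (by positivity)
    _ = I * (Dt * Y / η * (Y * Bx)) := by rw [sum_const, card_range, nsmul_eq_mul]
    _ ≤ Y / η * (Dt * Y / η * (Y * Bx)) := by
        refine mul_le_mul_of_nonneg_right hIR ?_
        positivity
    _ = 6 * (Dt / η * (Y ^ 4 / Y ^ 1999)) := by
        rw [hBx]
        field_simp
    _ ≤ Y * (Dt / η * (Y ^ 4 / Y ^ 1999)) := by
        refine mul_le_mul_of_nonneg_right (by linarith) (by positivity)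
    _ = Dt / η * (Y ^ 5 / Y ^ 1999) := by ring

end

end Pool.Agent.LSPO2
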