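import Pool.Agent.Lib_helper31.LSP2.FinG
import Pool.Agent.Lib_helper97.LSP2.Inst

/-! LSP2, part O2: the off-diagonal of a fixed prime level, large conductors removed. -/

set_option autoImplicit false

namespace Pool.Agent.LSPO2

open Finset

theorem Gs_ne {B E : ℕ} : ∀ g ∈ LSP.Gs B E, g ≠ 0 := by
  intro g hg
  unfold LSP.Gs at hg
  exact (mem_erase.1 hg).1

/-- the parameters of the final statements -/
theorem fin_X {G : ℝ → ℝ} {U c κ x V : ℝ} {N Q Dl R X : ℕ} {P : Finset ℕ} {θ a : ℕ → ℝ}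
    (hκ : 0 < κ) (hx : x = (X : ℝ)) (h : O2P G U c (x ^ (κ / 20)) x V N Q Dl R P θ a) {B₀ : ℕ} :
    |LSPO.ODg (LSP.CY P θ a) G (LSP.E2 κ X ^ 2) (LSP.Gs B₀ (LSP.E2 κ X)) N -
      LSP.SMg (LSP.CY P θ a) G (LSP.om2 κ X) (LSP.E2 κ X ^ 2) (LSP.Gs B₀ (LSP.E2 κ X)) Dl R N| ≤
      (X : ℝ) ^ (-(20 * κ)) := by
  have hx1 := h.x1
  have hx0 := h.x0
  have hY2 := h.Y2
  have add : ∀ s t : ℝ, x ^ (s + t) = x ^ s * x ^ t := fun s t => Real.rpow_add hx0 s t
  have pos : ∀ s : ℝ, 0 < x ^ s := fun s => Real.rpow_pos_of_pos hx0 s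
  have hY : ∀ n : ℕ, (x ^ (κ / 20)) ^ n = x ^ (κ / 20 * n) := fun n => Ins_powY hx0.le _ n
  have e1 : LSP.om2 κ X = ((x ^ (κ / 20)) ^ 600)⁻¹ := by
    unfold LSP.om2
    rw [hY, ← Real.rpow_neg hx0.le, hx]
    congr 1
    push_cast
    ring
  have e2 : (X : ℝ) ^ (-(20 * κ)) = ((x ^ (κ / 20)) ^ 400)⁻¹ := by
    rw [hY, ← Real.rpow_neg hx0.le, hx]
    congr 1
    push_cast
    ring
  rw [e1, e2]
  refine h.fin _ Gs_ne ?_
  rw [hY]
  have e3 : x * x ^ (κ / 20 * (100 : ℕ)) = x ^ (1 + 5 * κ) := by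
    rw [add, Real.rpow_one]; congr 2; push_cast; ring
  rw [e3]
  have hE2 : x ^ (1 / 2 + 3 * κ) / 2 ≤ (LSP.E2 κ X : ℝ) := by
    rw [hx]
    exact Ins_floor (Real.one_le_rpow (by rw [← hx]; exact hx1) (by positivity))
  have e4 : (x ^ (1 / 2 + 3 * κ)) ^ 2 = x ^ κ * x ^ (1 + 5 * κ) := by
    rw [Ins_powY hx0.le, ← add]; congr 1; push_cast; ring
  have e5 : 16 ≤ x ^ κ := by
    have : x ^ (κ / 20) ≤ x ^ κ := Real.rpow_le_rpow_of_exponent_le hx1 (by linarith)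
    linarith
  push_cast
  calc 4 * x ^ (1 + 5 * κ) ≤ (x ^ κ / 4) * x ^ (1 + 5 * κ) := by
        refine mul_le_mul_of_nonneg_right ?_ (pos _).le
        linarith
    _ = (x ^ (1 / 2 + 3 * κ) / 2) ^ 2 := by rw [div_pow, e4]; ring
    _ ≤ (LSP.E2 κ X : ℝ) ^ 2 := by
        have := pos (1 / 2 + 3 * κ)
        gcongr

/-- the cross term of a fixed prime level -/
theorem o2_cross {G : ℝ → ℝ} {U c : ℝ} (hG : LSPO.GOK G U c) {B₀ : ℕ} (hB : U ≤ B₀) {κ v : ℝ}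
    (h0 : 0 < κ) (h1 : 1000 * κ ≤ v) (h2 : v ≤ 1 / 80) (h3 : κ ≤ 1 / 10000) :
    ∃ X₀ : ℕ, ∀ X : ℕ, X₀ ≤ X → ∀ N : ℕ, N.Prime → X ≤ 4 * N → N ≤ 8 * X →
    ∀ P : Finset ℕ, P ⊆ LSP.PB κ v X → ∀ θ : ℕ → ℝ, (∀ p ∈ P, |θ p| ≤ 1) →
    ∀ (Q : ℕ) (C : ℕ → ℝ), LSP.CK2 κ X Q C → (Q : ℝ) * (X : ℝ) ^ (v + κ) ≤ (X : ℝ) ^ (1 + 5 * κ) →
      |LSPO.ODg (LSP.CY P θ C) G (LSP.E2 κ X ^ 2) (LSP.Gs B₀ (LSP.E2 κ X)) N -
        LSP.SMg (LSP.CY P θ C) G (LSP.om2 κ X) (LSP.E2 κ X ^ 2) (LSP.Gs B₀ (LSP.E2 κ X))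
          (2 * (B₀ + 1) * LSP.E2 κ X) (LSP.R2 κ X) N| ≤ (X : ℝ) ^ (-(20 * κ)) := by
  obtain ⟨X₀, hX₀⟩ := inst_pr hG hB h0 h1 h2 h3
  refine ⟨max X₀ 1, fun X hX N hN hN1 hN2 P hP θ hθ Q C hC hQ => ?_⟩
  have hX1 : 1 ≤ X := le_trans (le_max_right _ _) hX
  have hx1 : (1 : ℝ) ≤ X := by exact_mod_cast hX1
  refine fin_X h0 rfl (hX₀ X (le_trans (le_max_left _ _) hX) N hN hN1 hN2 P hP θ hθ Q C
    (fun m => (hC.bdd m).trans ?_) hC.supp (hQ.trans ?_))
  · refine div_le_div_of_nonneg_right ?_ (Nat.cast_nonneg _)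
    exact Real.rpow_le_rpow_of_exponent_le hx1 (by linarith)
  · have : 0 < (X : ℝ) ^ (1 + 5 * κ) := by positivity
    linarith

/-- the quadratic term of a fixed prime level -/
theorem o2_quad {G : ℝ → ℝ} {U c : ℝ} (hG : LSPO.GOK G U c) {B₀ : ℕ} (hB : U ≤ B₀) {κ v : ℝ}
    (h0 : 0 < κ) (h1 : 1000 * κ ≤ v) (h2 : v ≤ 1 / 80) (h3 : κ ≤ 1 / 10000) :
    ∃ X₀ : ℕ, ∀ X : ℕ, X₀ ≤ X → ∀ N : ℕ, N.Prime → X ≤ 4 * N → N ≤ 8 * X →
    ∀ P : Finset ℕ, P ⊆ LSP.PB κ v X → ∀ θ : ℕ → ℝ, (∀ p ∈ P, |θ p| ≤ 1) →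
    ∀ (Q : ℕ) (C : ℕ → ℝ), LSP.CK2 κ X Q C →
      (Q : ℝ) * (X : ℝ) ^ (2 * (v + κ)) ≤ (X : ℝ) ^ (1 + 5 * κ) →
      |LSPO.ODg (LSP.CY P θ (LSP.CY P θ C)) G (LSP.E2 κ X ^ 2) (LSP.Gs B₀ (LSP.E2 κ X)) N -
        LSP.SMg (LSP.CY P θ (LSP.CY P θ C)) G (LSP.om2 κ X) (LSP.E2 κ X ^ 2)
          (LSP.Gs B₀ (LSP.E2 κ X)) (2 * (B₀ + 1) * LSP.E2 κ X) (LSP.R2 κ X) N| ≤
        (X : ℝ) ^ (-(20 * κ)) := by
  obtain ⟨X₀, hX₀⟩ := inst_pr hG hB h0 h1 h2 h3
  obtain ⟨C₁, hC₁0, hC₁⟩ := Pool.Agent.FG61.divisor_bound (ε := κ / 200) (by positivity)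
  have hev : ∀ᶠ X : ℕ in Filter.atTop, C₁ ≤ (X : ℝ) ^ (κ / 100) :=
    ((tendsto_rpow_atTop (by positivity : 0 < κ / 100)).comp
      tendsto_natCast_atTop_atTop).eventually_ge_atTop C₁
  obtain ⟨X₁, hX₁⟩ := Filter.eventually_atTop.1 hev
  refine ⟨max (max X₀ X₁) 2, fun X hX N hN hN1 hN2 P hP θ hθ Q C hC hQ => ?_⟩
  have hX1 : 1 ≤ X := le_trans (by norm_num) (le_trans (le_max_right _ _) hX)
  have hX0' : X₀ ≤ X := le_trans (le_trans (le_max_left _ _) (le_max_left _ _)) hX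
  have hX1' : X₁ ≤ X := le_trans (le_trans (le_max_right _ _) (le_max_left _ _)) hX
  set x : ℝ := (X : ℝ) with hx
  have hx1 : (1 : ℝ) ≤ x := by rw [hx]; exact_mod_cast hX1
  have hx0 : 0 < x := by linarith
  have mono : ∀ {s t : ℝ}, s ≤ t → x ^ s ≤ x ^ t := fun h => Real.rpow_le_rpow_of_exponent_le hx1 h
  have add : ∀ s t : ℝ, x ^ (s + t) = x ^ s * x ^ t := fun s t => Real.rpow_add hx0 s t
  have pos : ∀ s : ℝ, 0 < x ^ s := fun s => Real.rpow_pos_of_pos hx0 s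
  have hprs : ∀ p ∈ P, 1 ≤ p ∧ (p : ℝ) ≤ 2 * x ^ (v + κ) := by
    intro p hp
    have hp' := hP hp
    rw [LSP.PB, mem_filter, mem_Icc] at hp'
    exact ⟨hp'.2.1.one_lt.le,
      (Nat.cast_le.2 hp'.1.2).trans (Nat.floor_le (mul_nonneg (by norm_num) (pos _).le))⟩
  -- the support
  have hsup : ∀ m, LSP.CY P θ C m ≠ 0 → (m : ℝ) ≤ 2 * x ^ (v + κ) * Q := by
    intro m hm
    by_contra hh
    apply hm
    unfold LSP.CY
    refine sum_eq_zero fun p hp => ?_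
    obtain ⟨hp1, hp2⟩ := hprs p hp
    split_ifs with hd
    · obtain ⟨k, rfl⟩ := hd
      rw [Nat.mul_div_cancel_left k hp1]
      have : C k = 0 := by
        by_contra h1
        apply hh
        have hk : (k : ℝ) ≤ Q := by exact_mod_cast hC.supp k h1
        push_cast
        exact mul_le_mul hp2 hk (Nat.cast_nonneg _) (by positivity)
      rw [this, mul_zero]
    · rfl
  have hQx : 2 * x ^ (v + κ) * Q ≤ x ^ 2 * 2 := by
    have e1 : x ^ (v + κ) ≤ x ^ (2 * (v + κ)) := mono (by linarith)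
    have e2 : (Q : ℝ) * x ^ (v + κ) ≤ x ^ (1 + 5 * κ) :=
      le_trans (mul_le_mul_of_nonneg_left e1 (Nat.cast_nonneg _)) hQ
    have e3 : x ^ (1 + 5 * κ) ≤ x ^ 2 := by
      rw [← Real.rpow_natCast x 2]
      exact mono (by push_cast; linarith)
    linarith
  refine fin_X h0 rfl (hX₀ X hX0' N hN hN1 hN2 P hP θ hθ ⌊2 * x ^ (v + κ) * Q⌋₊ (LSP.CY P θ C)
    (fun m => ?_) (fun m hm => Nat.le_floor (hsup m hm)) ?_)
  · rcases Nat.eq_zero_or_pos m with hm0 | hm0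
    · subst hm0
      have e1 : C 0 = 0 := by
        have := hC.bdd 0
        rw [Nat.cast_zero, div_zero] at this
        exact abs_eq_zero.1 (le_antisymm this (abs_nonneg _))
      have e2 : LSP.CY P θ C 0 = 0 := by
        unfold LSP.CY
        refine sum_eq_zero fun p _ => ?_
        rw [Nat.zero_div, e1, mul_zero, ite_self]
      rw [e2, abs_zero, Nat.cast_zero, div_zero]
    · by_cases hz : LSP.CY P θ C m = 0
      · rw [hz, abs_zero]
        exact div_nonneg (pos _).le (Nat.cast_nonneg _)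
      have hm2 := (hsup m hz).trans hQx
      have hmR : (0 : ℝ) < m := by exact_mod_cast hm0
      have e1 : |LSP.CY P θ C m| ≤ LSPO.tau m * (x ^ (κ / 100) / m) := by
        unfold LSP.CY
        have f1 : ∀ p ∈ P, |(if p ∣ m then θ p / p * C (m / p) else 0)| ≤
            if p ∣ m then x ^ (κ / 100) / m else 0 := by
          intro p hp
          obtain ⟨hp1, hp2⟩ := hprs p hp
          split_ifs with hd
          · obtain ⟨k, rfl⟩ := hd
            rw [Nat.mul_div_cancel_left k hp1]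
            have hp0 : (0 : ℝ) < p := by exact_mod_cast hp1
            have hk0 : (0 : ℝ) < k := by
              rcases Nat.eq_zero_or_pos k with h | h
              · subst h; simp at hm0
              · exact_mod_cast h
            rw [abs_mul, abs_div, abs_of_pos hp0]
            calc |θ p| / p * |C k| ≤ 1 / p * (x ^ (κ / 100) / k) := by
                  have := hC.bdd k
                  have h2 := hθ p hp
                  gcongr
              _ = x ^ (κ / 100) / ((p * k : ℕ) : ℝ) := by push_cast; field_simp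
          · rw [abs_zero]
        refine (abs_sum_le_sum_abs _ _).trans ((sum_le_sum f1).trans ?_)
        rw [← sum_filter, sum_const, nsmul_eq_mul]
        refine mul_le_mul_of_nonneg_right ?_ (div_nonneg (pos _).le hmR.le)
        unfold LSPO.tau
        refine Nat.cast_le.2 (card_le_card fun p hp => ?_)
        rw [mem_filter] at hp
        rw [Nat.mem_divisors]
        exact ⟨hp.2, by omega⟩
      refine e1.trans ?_
      have e2 : LSPO.tau m ≤ x ^ (κ / 25) := by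
        unfold LSPO.tau
        calc (m.divisors.card : ℝ) ≤ C₁ * (m : ℝ) ^ (κ / 200) := hC₁ m hm0
          _ ≤ x ^ (κ / 100) * (x ^ 4) ^ (κ / 200) := by
              have g1 : (m : ℝ) ≤ x ^ 4 := by
                have h2 : 2 ≤ x := by
                  have : 2 ≤ X := le_trans (le_max_right _ _) hX
                  rw [hx]
                  exact_mod_cast this
                have h4 : x ^ 2 * 2 ≤ x ^ 4 := by
                  have h5 : x ^ 4 = x ^ 2 * x ^ 2 := by ring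
                  rw [h5]
                  refine mul_le_mul_of_nonneg_left ?_ (by positivity)
                  nlinarith
                linarith
              have g2 := hX₁ X hX1'
              gcongr
          _ = x ^ (κ / 100) * x ^ (κ / 50) := by
              rw [← Real.rpow_natCast x 4, ← Real.rpow_mul hx0.le]; congr 2; push_cast; ring
          _ ≤ x ^ (κ / 25) := by rw [← add]; exact mono (by linarith)
      calc LSPO.tau m * (x ^ (κ / 100) / m) ≤ x ^ (κ / 25) * (x ^ (κ / 100) / m) :=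
            mul_le_mul_of_nonneg_right e2 (div_nonneg (pos _).le hmR.le)
        _ = x ^ (κ / 20) / m := by
            rw [← mul_div_assoc, ← add]; congr 2; ring
  · calc ((⌊2 * x ^ (v + κ) * Q⌋₊ : ℕ) : ℝ) * x ^ (v + κ) ≤ 2 * x ^ (v + κ) * Q * x ^ (v + κ) := by
          refine mul_le_mul_of_nonneg_right (Nat.floor_le ?_) (pos _).le
          exact mul_nonneg (mul_nonneg (by norm_num) (pos _).le) (Nat.cast_nonneg _)
      _ = 2 * (Q * x ^ (2 * (v + κ))) := by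
          rw [show 2 * (v + κ) = (v + κ) + (v + κ) by ring, add (v + κ) (v + κ)]; ring
      _ ≤ 2 * x ^ (1 + 5 * κ) := by gcongr

end Pool.Agent.LSPO2
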